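import Pool.Agent.H72.Sh.S2
import Pool.Agent.H72.Rel.R3

/-!
# Conical points with a uniform constant, in the presence of parabolic points
-/

set_option autoImplicit false

open Filter Topology Set Metric Pool.Agent.TH289.C Pool.Agent.H72.Dj Pool.Agent.H72.Rel
open Pool.Agent.H72.Sh

namespace Pool.Agent.H72.Ca

variable {G : Type} [Group G] {X : Type} [MetricSpace X] [CompactSpace X] {α : G →* (X ≃ₜ X)}
variable {Ps : Finset X}

/-- Finitely many elements of the stabilizer of a parabolic point move a point far from the parabolic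
point to a point far from it. -/
theorem stab_fin {p : X} (hP : Par α p) {c c' : ℝ} (hc : 0 < c) (hc' : 0 < c') :
    {h : G | α h p = p ∧ ∃ w, c ≤ dist w p ∧ c' ≤ dist (α h w) p}.Finite := by
  set K : Set X := {w | min c c' ≤ dist w p} with hK
  have hKc : IsCompact K := (isClosed_le continuous_const
    (continuous_id.dist continuous_const)).isCompact
  have hpK : p ∉ K := by
    intro h
    have h1 : min c c' ≤ dist p p := h
    rw [dist_self] at h1
    exact absurd (lt_min hc hc') (not_lt.2 h1)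
  refine (hP.proper K hKc hpK).subset ?_
  rintro h ⟨h1, w, h2, h3⟩
  exact ⟨h1, w, (min_le_left c c').trans h2, (min_le_right c c').trans h3⟩

/-- Every point is parabolic or conical, with constants that do not depend on the point. -/
theorem con_or (hR : Rl α Ps) (hC : Cusp α Ps) (hperf : ∀ x : X, (𝓝[≠] x).NeBot) {r : ℝ}
    (hr : Rad α Ps r) :
    ∃ ε > 0, ∀ x : X, (∃ p ∈ Ps, ∃ f, α f p = x) ∨
      ∃ (g : ℕ → G) (a b : X), ε ≤ dist a b ∧ Conv α g b x ∧
        Tendsto (fun n => α (g n) x) atTop (𝓝 a) := by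
  obtain ⟨ε₁, hε₁, hcov⟩ := hC r hr.pos
  refine ⟨min ε₁ r, lt_min hε₁ hr.pos, fun x => ?_⟩
  by_cases hx : ∃ p ∈ Ps, ∃ f, α f p = x
  · exact Or.inl hx
  push Not at hx
  right
  obtain ⟨w, hwx, -⟩ := near_point hperf x one_pos
  have hy : ∀ n : ℕ, ∃ y : X, y ≠ x ∧ y ≠ w ∧ dist y x < 1 / ((n : ℝ) + 1) := by
    intro n
    obtain ⟨y, hy1, hy2⟩ := near_point hperf x (c := min (1 / ((n : ℝ) + 1)) (dist w x))
      (lt_min (by positivity) (dist_pos.2 hwx))
    refine ⟨y, hy1, fun h => ?_, hy2.trans_le (min_le_left _ _)⟩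
    rw [h] at hy2
    exact lt_irrefl _ (hy2.trans_le (min_le_right _ _))
  choose y hyx hyw hyd using hy
  have hk : ∀ n, ∃ k : G, min ε₁ r ≤ dist (α k x) (α k (y n)) ∧
      min ε₁ r ≤ dist (α k x) (α k w) := by
    intro n
    have ht : 0 < sep ![x, y n, w] := by
      unfold sep
      refine lt_min ?_ (lt_min ?_ ?_)
      · exact dist_pos.2 (hyx n).symm
      · exact dist_pos.2 (hyw n)
      · exact dist_pos.2 hwx.symm
    rcases hcov _ ht with ⟨g, hg⟩ | ⟨g, p, hp, hnear⟩
    · refine ⟨g, (min_le_left _ _).trans (hg.trans ?_), (min_le_left _ _).trans (hg.trans ?_)⟩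
      · exact sep_le (act α g ![x, y n, w]) (show (0 : Fin 3) ≠ 1 by decide)
      · exact sep_le (act α g ![x, y n, w]) (show (0 : Fin 3) ≠ 2 by decide)
    · obtain ⟨K, hK, hKr, hKc⟩ := hr.ex p hp
      obtain ⟨h, hhp, hhK⟩ := hKc (α g x) (fun h0 => hx p hp g⁻¹ (by rw [← h0, map_inv_apply]))
      have h2 := hKr _ hhK
      have h3 := hnear h hhp
      have h0 : ¬ dist (act α h (act α g ![x, y n, w]) 0) p < r := by
        rw [not_lt]
        have : act α h (act α g ![x, y n, w]) 0 = α h (α g x) := rfl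
        rw [this]
        linarith [hr.pos]
      have h4 : dist (act α h (act α g ![x, y n, w]) 1) p < r :=
        (near_or h3 (show (0 : Fin 3) ≠ 1 by decide)).resolve_left h0
      have h5 : dist (act α h (act α g ![x, y n, w]) 2) p < r :=
        (near_or h3 (show (0 : Fin 3) ≠ 2 by decide)).resolve_left h0
      have h4' : dist (α h (α g (y n))) p < r := h4
      have h5' : dist (α h (α g w)) p < r := h5
      refine ⟨h * g, (min_le_right _ _).trans ?_, (min_le_right _ _).trans ?_⟩
      · rw [map_mul_apply, map_mul_apply]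
        have := dist_triangle (α h (α g x)) (α h (α g (y n))) p
        linarith
      · rw [map_mul_apply, map_mul_apply]
        have := dist_triangle (α h (α g x)) (α h (α g w)) p
        linarith
  choose k hk1 hk2 using hk
  have hytend : Tendsto y atTop (𝓝 x) := by
    rw [tendsto_iff_dist_tendsto_zero]
    exact squeeze_zero (fun n => dist_nonneg) (fun n => (hyd n).le)
      tendsto_one_div_add_atTop_nhds_zero_nat
  have hpos : 0 < min ε₁ r := lt_min hε₁ hr.pos
  obtain ⟨φ, hφ, hc⟩ := seq_dich k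
  have hφt := hφ.tendsto_atTop
  rcases hc with ⟨s, hs⟩ | hcof
  · exfalso
    have h1 : Tendsto (fun n => dist (α s x) (α s (y (φ n)))) atTop (𝓝 (dist (α s x) (α s x))) :=
      tendsto_const_nhds.dist (((α s).continuous.tendsto x).comp (hytend.comp hφt))
    rw [dist_self] at h1
    obtain ⟨n, hn⟩ := (h1.eventually_lt_const hpos).exists
    have := hk1 (φ n)
    rw [hs] at this
    linarith
  · obtain ⟨ψ, hψ, b, z, hbz⟩ := hR.conv _ hcof
    have hCv : Conv α (fun n => k (φ (ψ n))) b z := hbz
    have ht : Tendsto (fun n => φ (ψ n)) atTop atTop := hφt.comp hψ.tendsto_atTop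
    have hzx : z = x := by
      by_contra hne
      have e1 := hCv.tendsto (x := x) (fun h0 => hne h0.symm)
      have e2 := hCv.tendsto' (hytend.comp ht) (fun h0 => hne h0.symm)
      have e3 := e1.dist e2
      rw [dist_self] at e3
      obtain ⟨n, hn⟩ := (e3.eventually_lt_const hpos).exists
      exact absurd (hk1 (φ (ψ n))) (not_le.2 hn)
    subst hzx
    obtain ⟨a, -, χ, hχ, ha⟩ := (isCompact_univ (X := X)).tendsto_subseq
      (x := fun n => α (k (φ (ψ n))) z) (fun n => mem_univ _)
    refine ⟨fun n => k (φ (ψ (χ n))), a, b, ?_, hCv.comp hχ.tendsto_atTop, ha⟩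
    have h1 : Tendsto (fun n => α (k (φ (ψ (χ n)))) w) atTop (𝓝 b) :=
      (hCv.tendsto hwx).comp hχ.tendsto_atTop
    have h2 : Tendsto (fun n => dist (α (k (φ (ψ (χ n)))) z) (α (k (φ (ψ (χ n)))) w)) atTop
      (𝓝 (dist a b)) := ha.dist h1
    exact ge_of_tendsto h2 (Eventually.of_forall fun n => hk2 _)

end Pool.Agent.H72.Ca
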