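import Pool.Agent.H72.Ca.C1

/-!
# Expanding steps, in the presence of parabolic points
-/

set_option autoImplicit false

open Filter Topology Set Metric Pool.Agent.TH289.C Pool.Agent.H72.Dj Pool.Agent.H72.Rel
open Pool.Agent.H72.Sh

namespace Pool.Agent.H72.Ca

variable {G : Type} [Group G] {X : Type} [MetricSpace X] [CompactSpace X] {α : G →* (X ≃ₜ X)}
variable {Ps : Finset X}

theorem local_par (hR : Rl α Ps) {r₀ : ℝ} (hr₀ : Rad α Ps r₀) {r η : ℝ} (hr : 0 < r)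
    (hrr : 3 * r < r₀) (hη : 0 < η) {p : X} (hp : p ∈ Ps) (f : G) :
    ∃ c > 0, ∀ y, dist y (α f p) ≤ c → dist y (α f p) < η / 2 ∧ ∀ y', dist y' y ≤ c →
      y' ≠ α f p → ∃ h, α h p = p ∧ Ex α r η y' (h * f⁻¹) p := by
  classical
  obtain ⟨K, hK, hKr, hKc⟩ := hr₀.ex p hp
  obtain ⟨c₁, hc₁, h1⟩ := exists_low α {f⁻¹} (half_pos hη)
  have hBf := stab_fin (hR.par p hp) hc₁ hr
  set B := hBf.toFinset with hB
  obtain ⟨c₂, hc₂, h2⟩ := exists_mod α B hr₀.pos
  obtain ⟨c₃, hc₃, h3⟩ := exists_mod α {f⁻¹} hc₂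
  have hfp : α f⁻¹ (α f p) = p := map_inv_apply α f p
  refine ⟨min (η / 5) (c₃ / 2), lt_min (by positivity) (by positivity), fun y hy => ⟨?_, ?_⟩⟩
  · have := hy.trans (min_le_left _ _)
    linarith
  · intro y' hy' hne
    have hyq : dist y' (α f p) ≤ 2 * min (η / 5) (c₃ / 2) := by
      have := dist_triangle y' y (α f p)
      linarith
    have hyq1 : dist y' (α f p) < η / 2 := by
      have := min_le_left (η / 5) (c₃ / 2)
      linarith
    have hyq2 : dist y' (α f p) ≤ c₃ := by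
      have := min_le_right (η / 5) (c₃ / 2)
      linarith
    have h4 := h3 f⁻¹ (by simp) _ _ hyq2
    rw [hfp] at h4
    obtain ⟨h, hhp, hhK⟩ := hKc (α f⁻¹ y') (fun h0 => hne (by rw [← h0, map_inv_apply']))
    have h5 := hKr _ hhK
    have hhB : h ∉ B := by
      intro hh
      have h6 := h2 h hh _ _ h4.le
      rw [hhp] at h6
      linarith [hr₀.pos]
    refine ⟨h, hhp, ?_, fun w hw => ?_⟩
    · rw [map_mul_apply]
      linarith
    · rw [map_mul_apply]
      by_contra hcon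
      push Not at hcon
      apply hhB
      rw [hB, hBf.mem_toFinset]
      refine ⟨hhp, α f⁻¹ w, ?_, hcon⟩
      have h6 : η / 2 ≤ dist w (α f p) := by
        have := dist_triangle w (α f p) y'
        rw [dist_comm (α f p)] at this
        linarith
      have h7 := h1 f⁻¹ (by simp) _ _ h6
      rwa [hfp] at h7

/-- Expanding steps at all points. -/
theorem exists_steps (hR : Rl α Ps) {ε₀ : ℝ}
    (hcon : ∀ x : X, (∃ p ∈ Ps, ∃ f, α f p = x) ∨
      ∃ (g : ℕ → G) (a b : X), ε₀ ≤ dist a b ∧ Conv α g b x ∧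
        Tendsto (fun n => α (g n) x) atTop (𝓝 a)) {r₀ : ℝ} (hr₀ : Rad α Ps r₀) {r η : ℝ}
    (hr : 0 < r) (hrε : 6 * r < ε₀) (hrr : 3 * r < r₀) (hη : 0 < η) :
    ∃ (S : Finset G) (F : Finset (G × X)) (c : ℝ), 0 < c ∧ (∀ a ∈ F, a.2 ∈ Ps) ∧
      ∀ y, (∃ s ∈ S, ∃ b, Ex α r η y s b) ∨ ∃ a ∈ F, dist y (α a.1 a.2) < η / 2 ∧
        ∀ y', dist y' y ≤ c → y' ≠ α a.1 a.2 →
          ∃ h, α h a.2 = a.2 ∧ Ex α r η y' (h * a.1⁻¹) a.2 := by
  classical
  have main := isCompact_univ (X := X) |>.induction_on (p := fun A : Set X =>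
    ∃ (S : Finset G) (F : Finset (G × X)) (c : ℝ), 0 < c ∧ (∀ a ∈ F, a.2 ∈ Ps) ∧
      ∀ y ∈ A, (∃ s ∈ S, ∃ b, Ex α r η y s b) ∨ ∃ a ∈ F, dist y (α a.1 a.2) < η / 2 ∧
        ∀ y', dist y' y ≤ c → y' ≠ α a.1 a.2 →
          ∃ h, α h a.2 = a.2 ∧ Ex α r η y' (h * a.1⁻¹) a.2) ?_ ?_ ?_ ?_
  · obtain ⟨S, F, c, hc, hF, h⟩ := main
    exact ⟨S, F, c, hc, hF, fun y => h y (mem_univ y)⟩
  · exact ⟨∅, ∅, 1, one_pos, by simp, by simp⟩
  · rintro A B hAB ⟨S, F, c, hc, hF, h⟩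
    exact ⟨S, F, c, hc, hF, fun y hy => h y (hAB hy)⟩
  · rintro A B ⟨S, F, c, hc, hF, h⟩ ⟨S', F', c', hc', hF', h'⟩
    refine ⟨S ∪ S', F ∪ F', min c c', lt_min hc hc', fun a ha => ?_, fun y hy => ?_⟩
    · rcases Finset.mem_union.1 ha with ha | ha
      · exact hF a ha
      · exact hF' a ha
    · rcases hy with hy | hy
      · rcases h y hy with ⟨s, hs, h1⟩ | ⟨a, ha, h1, h2⟩
        · exact Or.inl ⟨s, Finset.mem_union_left _ hs, h1⟩
        · exact Or.inr ⟨a, Finset.mem_union_left _ ha, h1,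
            fun y' hy' => h2 y' (hy'.trans (min_le_left _ _))⟩
      · rcases h' y hy with ⟨s, hs, h1⟩ | ⟨a, ha, h1, h2⟩
        · exact Or.inl ⟨s, Finset.mem_union_right _ hs, h1⟩
        · exact Or.inr ⟨a, Finset.mem_union_right _ ha, h1,
            fun y' hy' => h2 y' (hy'.trans (min_le_right _ _))⟩
  · intro x _
    rcases hcon x with ⟨p, hp, f, rfl⟩ | ⟨g, a, b, hab, hg, ha⟩
    · obtain ⟨c, hc, h⟩ := local_par hR hr₀ hr hrr hη hp f
      refine ⟨closedBall (α f p) c, mem_nhdsWithin_of_mem_nhds (closedBall_mem_nhds _ hc),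
        ∅, {(f, p)}, c, hc, fun a ha => ?_, fun y hy => Or.inr ⟨(f, p), by simp, h y hy⟩⟩
      rw [Finset.mem_singleton] at ha
      rw [ha]
      exact hp
    · have h1 : Tendsto (fun n => dist (α (g n) x) b) atTop (𝓝 (dist a b)) :=
        ha.dist tendsto_const_nhds
      have h2 := h1.eventually_const_lt (hrε.trans_le hab)
      obtain ⟨n, hn1, hn2⟩ := (h2.and (hg (ball b r) (ball_mem_nhds b hr) (ball x (η / 2))
        (ball_mem_nhds x (by positivity)))).exists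
      refine ⟨ball x (η / 2) ∩ {y | 6 * r < dist (α (g n) y) b}, mem_nhdsWithin_of_mem_nhds
        (inter_mem (ball_mem_nhds x (by positivity)) ((isOpen_lt continuous_const
          (((α (g n)).continuous).dist continuous_const)).mem_nhds hn1)), {g n}, ∅, 1, one_pos,
        by simp, fun y hy => Or.inl ⟨g n, by simp, b, hy.2, fun w hw => hn2 w fun hwx => ?_⟩⟩
      have h3 := mem_ball.1 hwx
      have h4 := mem_ball.1 hy.1
      have h5 := dist_triangle_right w y x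
      linarith

end Pool.Agent.H72.Ca
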