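import Pool.Agent.H72.Sh.S2

/-!
# Finite chains of expanding steps
-/

set_option autoImplicit false

open Filter Topology Set Metric Pool.Agent.TH289.C Pool.Agent.H72.Dj
open Pool.Agent.H72.Sh

namespace Pool.Agent.H72.Ca

variable {G : Type} [Group G] {X : Type} [MetricSpace X] {α : G →* (X ≃ₜ X)}

/-- A chain of `M` expanding steps, with errors at most `e`. -/
structure ChN (α : G →* (X ≃ₜ X)) (r η e : ℝ) (y b : ℕ → X) (s : ℕ → G) (M : ℕ) : Prop where
  ex : ∀ k < M, Ex α r η (y k) (s k) (b k)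
  near : ∀ k < M, dist (α (s k) (y k)) (y (k + 1)) ≤ e

variable {r η e : ℝ} {y b : ℕ → X} {s : ℕ → G} {M : ℕ}

theorem ChN.shift (h : ChN α r η e y b s M) (k : ℕ) :
    ChN α r η e (fun i => y (k + i)) (fun i => b (k + i)) (fun i => s (k + i)) (M - k) :=
  ⟨fun i hi => h.ex (k + i) (by omega), fun i hi => h.near (k + i) (by omega)⟩

theorem ChN.mono (h : ChN α r η e y b s M) {M' : ℕ} (hM : M' ≤ M) : ChN α r η e y b s M' :=
  ⟨fun i hi => h.ex i (by omega), fun i hi => h.near i (by omega)⟩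

theorem ChN.monoe (h : ChN α r η e y b s M) {e' : ℝ} (he : e ≤ e') : ChN α r η e' y b s M :=
  ⟨h.ex, fun i hi => (h.near i hi).trans he⟩

theorem ChN.far (h : ChN α r η e y b s M) (her : e ≤ r) {k : ℕ} (hk : k < M) :
    5 * r < dist (y (k + 1)) (b k) := by
  have h2 := h.ex k hk |>.1
  have h3 := h.near k hk
  have h4 := dist_triangle (α (s k) (y k)) (y (k + 1)) (b k)
  linarith

theorem ChN.out (h : ChN α r η e y b s M) (her : e ≤ r) {k : ℕ} (hk : k < M) {w : X}
    (hw : η ≤ dist w (y k)) :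
    dist (α (s k) w) (b k) < r ∧ 4 * r < dist (α (s k) w) (y (k + 1)) := by
  have h1 := (h.ex k hk).2 w hw
  refine ⟨h1, ?_⟩
  have h2 := h.far her hk
  have h4 := dist_triangle_left (y (k + 1)) (b k) (α (s k) w)
  linarith

theorem ChN.out_all (h : ChN α r η e y b s M) (her : e ≤ r) (hr : 0 < r) (hη : η ≤ r) {j : ℕ}
    {w : X} (hw : η ≤ dist (α (pr s j) w) (y j)) (k : ℕ) (hk : j ≤ k) : k < M →
    dist (α (pr s (k + 1)) w) (b k) < r ∧ 4 * r < dist (α (pr s (k + 1)) w) (y (k + 1)) := by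
  induction k, hk using Nat.le_induction with
  | base => intro hM; rw [act_succ]; exact h.out her hM hw
  | succ k hk ih =>
    intro hM
    rw [act_succ]
    exact h.out her hM (by linarith [ih (by omega)])

theorem ChN.in_all (h : ChN α r η e y b s M) (her : e ≤ r) (hr : 0 < r) (hη : η ≤ r) {m : ℕ}
    (hm : m ≤ M) {w : X} (hw : dist (α (pr s m) w) (y m) ≤ 2 * r) {k : ℕ} (hk : k < m) :
    dist (α (pr s k) w) (y k) < η := by
  by_contra h1
  push Not at h1
  obtain ⟨m, rfl⟩ : ∃ m', m = m' + 1 := ⟨m - 1, by omega⟩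
  have := (h.out_all her hr hη h1 m (by omega) (by omega)).2
  linarith

/-- The partial products are different. -/
theorem ChN.ne (h : ChN α r η e y b s M) (her : e ≤ r) (hr : 0 < r) (hη : η ≤ r)
    {w : Fin 3 → X} (he : Wide r w) {j k : ℕ} (hjk : j < k) (hk : k ≤ M) : pr s j ≠ pr s k := by
  intro heq
  obtain ⟨k, rfl⟩ : ∃ k', k = k' + 1 := ⟨k - 1, by omega⟩
  obtain ⟨i, hi, hi'⟩ := he.one (y j) (b k)
  have h1 : α (pr s j) (α (pr s j)⁻¹ (w i)) = w i := map_inv_apply' α _ _
  have h2 := (h.out_all her hr hη (j := j) (w := α (pr s j)⁻¹ (w i)) (by rw [h1]; linarith) k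
    (by omega) (by omega)).1
  rw [← heq, h1] at h2
  linarith

/-- The elements that contract two points at distance `η₁`, but not two of the points `w i`. -/
theorem cfin (hα : IsConvergenceAction α) (hr : 0 < r) {w : Fin 3 → X} (he : Wide r w) {η₁ : ℝ}
    (hη₁ : 0 < η₁) : ∃ U : Finset G, ∀ g, ∀ i j, i ≠ j → ∀ v v' p : X, η₁ ≤ dist v v' →
      dist (α g v) p ≤ 2 * r → dist (α g v') p ≤ 2 * r → 4 * r ≤ dist (α g (w i)) p →
      4 * r ≤ dist (α g (w j)) p → g ∈ U := by
  classical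
  set A : Fin 3 → Fin 3 → Set G := fun i j => {g : G | i ≠ j ∧ ∃ v v' p : X, η₁ ≤ dist v v' ∧
    dist (α g v) p ≤ 2 * r ∧ dist (α g v') p ≤ 2 * r ∧ 4 * r ≤ dist (α g (w i)) p ∧
      4 * r ≤ dist (α g (w j)) p} with hA
  have hAf : ∀ i j, (A i j).Finite := by
    intro i j
    by_cases hij : i = j
    · have : A i j = ∅ := by
        ext g
        simp [hA, hij]
      rw [this]
      exact finite_empty
    · have hne : w i ≠ w j := by
        intro h0
        have := he i j hij
        rw [h0, dist_self] at this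
        linarith
      exact (fin_contract hα hη₁ hr hne).subset fun g hg => hg.2
  have hU : (⋃ i, ⋃ j, A i j).Finite := finite_iUnion fun i => finite_iUnion fun j => hAf i j
  refine ⟨hU.toFinset, fun g i j hij v v' p h1 h2 h3 h4 h5 => ?_⟩
  rw [hU.mem_toFinset]
  exact mem_iUnion.2 ⟨i, mem_iUnion.2 ⟨j, hij, v, v', p, h1, h2, h3, h4, h5⟩⟩

theorem ChN.far_two (h : ChN α r η e y b s M) (her : e ≤ r) (hr : 0 < r) (hη : η ≤ r)
    {w : Fin 3 → X} (he : Wide r w) : ∃ i j, i ≠ j ∧ ∀ k, 0 < k → k ≤ M →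
      4 * r ≤ dist (α (pr s k) (w i)) (y k) ∧ 4 * r ≤ dist (α (pr s k) (w j)) (y k) := by
  obtain ⟨i, j, hij, hi, hj⟩ := he.two (y 0)
  have h1 : ∀ x : X, α (pr s 0) x = x := fun x => by rw [pr_zero, map_one]; rfl
  refine ⟨i, j, hij, fun k hk hkM => ?_⟩
  obtain ⟨k, rfl⟩ : ∃ k', k = k' + 1 := ⟨k - 1, by omega⟩
  exact ⟨(h.out_all her hr hη (j := 0) (w := w i) (by rw [h1]; linarith) k (by omega)
    (by omega)).2.le, (h.out_all her hr hη (j := 0) (w := w j) (by rw [h1]; linarith) k (by omega)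
    (by omega)).2.le⟩

/-- **Uniform contraction** along chains. -/
theorem contractN (hα : IsConvergenceAction α) (hr : 0 < r) (hη : η ≤ r) {w : Fin 3 → X}
    (he : Wide r w) {η₁ : ℝ} (hη₁ : 0 < η₁) : ∃ m : ℕ, ∀ (e : ℝ) (y b : ℕ → X) (s : ℕ → G),
      e ≤ r → ChN α r η e y b s m → ∀ v v' : X, dist (α (pr s m) v) (y m) ≤ 2 * r →
        dist (α (pr s m) v') (y m) ≤ 2 * r → dist v v' < η₁ := by
  classical
  obtain ⟨U, hU⟩ := cfin hα hr he hη₁
  refine ⟨U.card + 1, fun e y b s her h v v' hv hv' => ?_⟩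
  by_contra hcon
  push Not at hcon
  obtain ⟨i, j, hij, hw⟩ := h.far_two her hr hη he
  have hin : ∀ w, dist (α (pr s (U.card + 1)) w) (y (U.card + 1)) ≤ 2 * r → ∀ k ≤ U.card + 1,
      dist (α (pr s k) w) (y k) ≤ 2 * r := by
    intro w hw k hk
    rcases hk.lt_or_eq with h1 | h1
    · have := h.in_all her hr hη le_rfl hw h1
      linarith
    · rw [h1]; exact hw
  have hmem : ∀ k ∈ Finset.range (U.card + 1), pr s (k + 1) ∈ U := by
    intro k hk
    have hk' : k + 1 ≤ U.card + 1 := by simpa using Finset.mem_range.1 hk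
    have h2 := hw (k + 1) (by omega) hk'
    exact hU _ i j hij v v' (y (k + 1)) hcon (hin v hv _ hk') (hin v' hv' _ hk') h2.1 h2.2
  have hinj : Set.InjOn (fun k => pr s (k + 1)) (Finset.range (U.card + 1)) := by
    intro k hk l hl hkl
    have hk' : k < U.card + 1 := by simpa using hk
    have hl' : l < U.card + 1 := by simpa using hl
    by_contra hne
    rcases lt_or_gt_of_ne hne with h1 | h1
    · exact h.ne her hr hη he (by omega : k + 1 < l + 1) (by omega) hkl
    · exact h.ne her hr hη he (by omega : l + 1 < k + 1) (by omega) hkl.symm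
  have := Finset.card_le_card_of_injOn _ hmem hinj
  rw [Finset.card_range] at this
  omega

/-- Uniform equicontinuity of the inverse branches. -/
theorem equiN [CompactSpace X] (hα : IsConvergenceAction α) (hr : 0 < r) (hη : η ≤ r) {w : Fin 3 → X}
    (he : Wide r w) {c : ℝ} (hc : 0 < c) : ∃ c' > 0, ∀ (e : ℝ) (y b : ℕ → X) (s : ℕ → G) (M : ℕ),
      e ≤ r → ChN α r η e y b s M → ∀ v v' : X, dist (α (pr s M) v) (y M) ≤ 2 * r →
        dist (α (pr s M) v') (y M) ≤ 2 * r → dist (α (pr s M) v) (α (pr s M) v') ≤ c' →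
        dist v v' < c := by
  obtain ⟨U, hU⟩ := cfin hα hr he hc
  obtain ⟨d, hd, hlow⟩ := exists_low α U hc
  refine ⟨min (d / 2) (c / 2), lt_min (by positivity) (by positivity),
    fun e y b s M her h v v' hv hv' hvv => ?_⟩
  by_contra hcon
  push Not at hcon
  rcases Nat.eq_zero_or_pos M with h0 | h0
  · subst h0
    have h1 : ∀ x : X, α (pr s 0) x = x := fun x => by rw [pr_zero, map_one]; rfl
    rw [h1, h1] at hvv
    have := hvv.trans (min_le_right _ _)
    linarith
  · obtain ⟨i, j, hij, hw⟩ := h.far_two her hr hη he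
    have h2 := hw M h0 le_rfl
    have h3 := hU _ i j hij v v' (y M) hcon hv hv' h2.1 h2.2
    have h4 := hlow _ h3 _ _ hcon
    have := hvv.trans (min_le_left _ _)
    linarith

/-- The base points of a chain are almost pulled back to each other. -/
theorem teleN [CompactSpace X] (hα : IsConvergenceAction α) (hr : 0 < r) (hη : η ≤ r) {w : Fin 3 → X}
    (he : Wide r w) {c : ℝ} (hc : 0 < c) (m : ℕ) : ∃ e₀ > 0, e₀ ≤ r ∧
      ∀ (y b : ℕ → X) (s : ℕ → G) (M : ℕ), ChN α r η e₀ y b s M → M ≤ m →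
        dist (y 0) (α (pr s M)⁻¹ (y M)) < c := by
  obtain ⟨c', hc', heq⟩ := equiN (α := α) hα hr hη he
    (show 0 < c / ((m : ℝ) + 1) by positivity)
  refine ⟨min r c', lt_min hr hc', min_le_left _ _, fun y b s M h hM => ?_⟩
  have key : ∀ k ≤ M, dist (y 0) (α (pr s k)⁻¹ (y k)) ≤ k * (c / ((m : ℝ) + 1)) := by
    intro k
    induction k with
    | zero =>
      intro _
      have h1 : α (pr s 0)⁻¹ (y 0) = y 0 := by rw [pr_zero, inv_one, map_one]; rfl
      rw [h1, dist_self]
      simp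
    | succ k ih =>
      intro hk
      have h1 := ih (by omega)
      have e1 : α (pr s (k + 1)) (α (pr s k)⁻¹ (y k)) = α (s k) (y k) := by
        rw [act_succ, map_inv_apply']
      have e2 : α (pr s (k + 1)) (α (pr s (k + 1))⁻¹ (y (k + 1))) = y (k + 1) :=
        map_inv_apply' α _ _
      have hn := h.near k (by omega)
      have h2 : dist (α (pr s k)⁻¹ (y k)) (α (pr s (k + 1))⁻¹ (y (k + 1))) <
          c / ((m : ℝ) + 1) := by
        refine heq _ y b s (k + 1) (min_le_left r c') (h.mono hk) _ _ ?_ ?_ ?_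
        · rw [e1]
          have := hn.trans (min_le_left _ _)
          linarith
        · rw [e2, dist_self]
          positivity
        · rw [e1, e2]
          exact hn.trans (min_le_right _ _)
      have h3 := dist_triangle (y 0) (α (pr s k)⁻¹ (y k)) (α (pr s (k + 1))⁻¹ (y (k + 1)))
      push_cast
      linarith
  have h1 := key M le_rfl
  have h2 : (M : ℝ) * (c / ((m : ℝ) + 1)) < c := by
    rw [← mul_div_assoc, div_lt_iff₀ (by positivity)]
    have : (M : ℝ) ≤ m := by exact_mod_cast hM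
    nlinarith
  linarith

/-- **Accuracy**: a tracing point is close to the base points of the chain. -/
theorem accN [CompactSpace X] (hα : IsConvergenceAction α) (hr : 0 < r) (hη : η ≤ r) {w : Fin 3 → X}
    (he : Wide r w) {η₁ : ℝ} (hη₁ : 0 < η₁) : ∃ (e₀ : ℝ) (m : ℕ), 0 < e₀ ∧ e₀ ≤ r ∧
      ∀ (y b : ℕ → X) (s : ℕ → G) (M : ℕ), ChN α r η e₀ y b s M → ∀ x : X,
        dist (α (pr s M) x) (y M) ≤ 2 * r → ∀ k ≤ M, (k + m ≤ M ∨ α (pr s M) x = y M) →
        dist (α (pr s k) x) (y k) < η₁ := by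
  obtain ⟨m, hm⟩ := contractN (α := α) hα hr hη he (half_pos hη₁)
  obtain ⟨e₀, he₀, he₀r, htele⟩ := teleN (α := α) hα hr hη he (half_pos hη₁) m
  refine ⟨e₀, m, he₀, he₀r, fun y b s M h x hx k hk hkm => ?_⟩
  have hin : ∀ i ≤ M, dist (α (pr s i) x) (y i) ≤ 2 * r := by
    intro i hi
    rcases hi.lt_or_eq with h1 | h1
    · have := h.in_all he₀r hr hη le_rfl hx h1
      linarith
    · rw [h1]; exact hx
  by_cases hcase : k + m ≤ M
  · have h1 := (h.shift k).mono (M' := m) (by omega)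
    have h2 := htele _ _ _ m h1 le_rfl
    have e1 : α (pr (fun i => s (k + i)) m) (α (pr s k) x) = α (pr s (k + m)) x := by
      rw [pr_add, map_mul_apply]
    have h3 := hm e₀ _ _ _ he₀r h1 (α (pr s k) x)
      (α (pr (fun i => s (k + i)) m)⁻¹ (y (k + m))) (by rw [e1]; exact hin _ hcase)
      (by rw [map_inv_apply', dist_self]; positivity)
    have h4 := dist_triangle_right (α (pr s k) x) (y k)
      (α (pr (fun i => s (k + i)) m)⁻¹ (y (k + m)))
    have h2' : dist (y k) (α (pr (fun i => s (k + i)) m)⁻¹ (y (k + m))) < η₁ / 2 := h2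
    linarith
  · have hx' := hkm.resolve_left hcase
    obtain ⟨d, rfl⟩ : ∃ d, M = k + d := ⟨M - k, by omega⟩
    have h1 := (h.shift k).mono (M' := d) (by omega)
    have h2 := htele _ _ _ d h1 (by omega)
    have h2' : dist (y k) (α (pr (fun i => s (k + i)) d)⁻¹ (y (k + d))) < η₁ / 2 := h2
    rw [pr_add, map_mul_apply] at hx'
    rw [← hx', map_inv_apply] at h2'
    rw [dist_comm]
    linarith

end Pool.Agent.H72.Ca
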