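import Pool.Agent.H72.Ca.C1

/-!
# Triples near a parabolic point
-/

set_option autoImplicit false

open Filter Topology Set Metric Pool.Agent.TH289.C Pool.Agent.H72.Dj Pool.Agent.H72.Rel
open Pool.Agent.H72.Sh

namespace Pool.Agent.H72.Ca

variable {G : Type} [Group G] {X : Type} [MetricSpace X] {α : G →* (X ≃ₜ X)}
variable {Ps : Finset X}

/-- Pairwise distances at least `κ`. -/
def Sp3 (κ : ℝ) (a b c : X) : Prop := κ ≤ dist a b ∧ κ ≤ dist b c ∧ κ ≤ dist a c

theorem Sp3.swap {κ : ℝ} {a b c : X} (h : Sp3 κ a b c) : Sp3 κ b a c :=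
  ⟨by rw [dist_comm]; exact h.1, h.2.2, h.2.1⟩

theorem Sp3.mono {κ κ' : ℝ} {a b c : X} (h : Sp3 κ a b c) (hk : κ' ≤ κ) : Sp3 κ' a b c :=
  ⟨hk.trans h.1, hk.trans h.2.1, hk.trans h.2.2⟩

theorem Sp3.sep {κ : ℝ} {z z' w : X} {m : G} (h : Sp3 κ (α m z) (α m z') (α m w)) :
    κ ≤ sep (act α m ![z, z', w]) := by
  unfold TH289.C.sep
  exact le_min h.1 (le_min h.2.1 h.2.2)

/-- Two of the points are close to `p`. -/
def TwoN (p : X) (η : ℝ) (a b c : X) : Prop :=
  (dist a p < η ∧ dist b p < η) ∨ (dist b p < η ∧ dist c p < η) ∨ (dist a p < η ∧ dist c p < η)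

theorem TwoN.swap {p : X} {η : ℝ} {a b c : X} (h : TwoN p η a b c) : TwoN p η b a c := by
  rcases h with h | h | h
  · exact Or.inl ⟨h.2, h.1⟩
  · exact Or.inr (Or.inr h)
  · exact Or.inr (Or.inl h)

theorem not_twoN {p : X} {η : ℝ} {a b c : X} (h : ¬ TwoN p η a b c) :
    (η ≤ dist a p ∧ η ≤ dist c p) ∨ (η ≤ dist b p ∧ η ≤ dist c p) ∨
      (η ≤ dist a p ∧ η ≤ dist b p) := by
  unfold TwoN at h
  by_cases ha : dist a p < η
  · by_cases hb : dist b p < η
    · exact absurd (Or.inl ⟨ha, hb⟩) h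
    · by_cases hc : dist c p < η
      · exact absurd (Or.inr (Or.inr ⟨ha, hc⟩)) h
      · exact Or.inr (Or.inl ⟨not_lt.1 hb, not_lt.1 hc⟩)
  · by_cases hb : dist b p < η
    · by_cases hc : dist c p < η
      · exact absurd (Or.inr (Or.inl ⟨hb, hc⟩)) h
      · exact Or.inl ⟨not_lt.1 ha, not_lt.1 hc⟩
    · exact Or.inr (Or.inr ⟨not_lt.1 ha, not_lt.1 hb⟩)

/-- The triple is deep at the parabolic point `p`, in the frame `u`. -/
def DeepT (α : G →* (X ≃ₜ X)) (η : ℝ) (p : X) (u : G) (a b c : X) : Prop :=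
  ∀ h, α h p = p → TwoN p η (α h (α u a)) (α h (α u b)) (α h (α u c))

theorem DeepT.swap {η : ℝ} {p : X} {u : G} {a b c : X} (h : DeepT α η p u a b c) :
    DeepT α η p u b a c := fun k hk => (h k hk).swap

theorem DeepT.deep (hR : Rl α Ps) {η : ℝ} {p : X} (hp : p ∈ Ps) {u : G} {a b c : X}
    (h : DeepT α η p u a b c) : Deep α Ps η (α u⁻¹ p) ![a, b, c] := by
  intro p' hp' g hg
  have h1 : α (u * g) p' = p := by rw [map_mul_apply, hg, map_inv_apply']
  have h2 : p = p' := by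
    have := hR.ineq p' hp' (u * g) (by rw [h1]; exact hp)
    rw [← this, h1]
  subst h2
  have h3 := h (u * g)⁻¹ (fix_inv h1)
  rw [Nr_lt]
  have e : ∀ x : X, α (u * g)⁻¹ (α u x) = α g⁻¹ x := by
    intro x
    rw [← map_mul_apply]
    congr 2
    group
  rw [e, e, e] at h3
  rcases h3 with h3 | h3 | h3
  · exact ⟨0, 1, by decide, h3.1, h3.2⟩
  · exact ⟨1, 2, by decide, h3.1, h3.2⟩
  · exact ⟨0, 2, by decide, h3.1, h3.2⟩

variable [CompactSpace X]

/-- Deep triples have no separated translates. -/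
theorem deep_thin [Infinite X] (hR : Rl α Ps) {r : ℝ} (hr : Rad α Ps r) {κ : ℝ} (hκ : 0 < κ) :
    ∃ η > 0, η ≤ r ∧ ∀ q ∈ Q α Ps, ∀ t, Deep α Ps η q t → ∀ g, sep (act α g t) < κ := by
  by_contra hcon
  push Not at hcon
  have h1 : ∀ n : ℕ, ∃ q ∈ Q α Ps, ∃ t, Deep α Ps (min r (1 / ((n : ℝ) + 1))) q t ∧
      κ ≤ sep t := by
    intro n
    obtain ⟨q, hq, t, ht, g, hg⟩ := hcon (min r (1 / ((n : ℝ) + 1)))
      (lt_min hr.pos (by positivity)) (min_le_left _ _)
    exact ⟨α g q, Q_inv hq g, act α g t, ht.move g, hg⟩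
  choose q hq t ht hs using h1
  obtain ⟨t₀, φ, hφ, ht₀⟩ := CompactSpace.tendsto_subseq t
  have hφt := hφ.tendsto_atTop
  have hs₀ : κ ≤ sep t₀ := by
    have h2 := (continuous_sep (X := X)).tendsto t₀ |>.comp ht₀
    exact ge_of_tendsto h2 (Eventually.of_forall fun n => hs _)
  have hne₀ : ∀ i j, i ≠ j → t₀ i ≠ t₀ j := by
    intro i j hij h0
    have h2 := sep_le t₀ hij
    rw [h0, dist_self] at h2
    linarith
  obtain ⟨y, ψ, hψ, hy⟩ := CompactSpace.tendsto_subseq (fun n => q (φ n))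
  have hψt := hψ.tendsto_atTop
  obtain ⟨i, j, hij, hi, hj⟩ := two_of_three (z := t₀) hne₀ y
  obtain ⟨χ, hχ, hc⟩ := seq_dich (fun n => q (φ (ψ n)))
  have hχt := hχ.tendsto_atTop
  have hall : Tendsto (fun n => φ (ψ (χ n))) atTop atTop := hφt.comp (hψt.comp hχt)
  have hti : Tendsto (fun n => t (φ (ψ (χ n))) i) atTop (𝓝 (t₀ i)) :=
    ((continuous_apply i).tendsto t₀).comp (ht₀.comp (hψt.comp hχt))
  have htj : Tendsto (fun n => t (φ (ψ (χ n))) j) atTop (𝓝 (t₀ j)) :=
    ((continuous_apply j).tendsto t₀).comp (ht₀.comp (hψt.comp hχt))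
  have hyt : Tendsto (fun n => q (φ (ψ (χ n)))) atTop (𝓝 y) := hy.comp hχt
  rcases hc with ⟨q₀, hq₀⟩ | hcof
  · simp only [hq₀] at hyt
    have hyq : q₀ = y := tendsto_nhds_unique tendsto_const_nhds hyt
    obtain ⟨p, hp, g, hg⟩ := hq (φ (ψ (χ 0)))
    rw [hq₀] at hg
    have hd : ∀ n, Near p (1 / (((φ (ψ (χ n)) : ℕ) : ℝ) + 1)) (act α g⁻¹ (t (φ (ψ (χ n))))) := by
      intro n
      rw [← Nr_lt]
      exact (ht (φ (ψ (χ n))) p hp g (by rw [hg, hq₀])).trans_le (min_le_right _ _)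
    have hpe : p = α g⁻¹ y := by rw [← hyq, ← hg, map_inv_apply]
    have l1 : Tendsto (fun n => dist (α g⁻¹ (t (φ (ψ (χ n))) i)) p) atTop
        (𝓝 (dist (α g⁻¹ (t₀ i)) p)) :=
      (((α g⁻¹).continuous.tendsto _).comp hti).dist tendsto_const_nhds
    have l2 : Tendsto (fun n => dist (α g⁻¹ (t (φ (ψ (χ n))) j)) p) atTop
        (𝓝 (dist (α g⁻¹ (t₀ j)) p)) :=
      (((α g⁻¹).continuous.tendsto _).comp htj).dist tendsto_const_nhds
    have p1 : 0 < dist (α g⁻¹ (t₀ i)) p := by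
      rw [dist_pos, hpe]
      exact fun h0 => hi ((α g⁻¹).injective h0)
    have p2 : 0 < dist (α g⁻¹ (t₀ j)) p := by
      rw [dist_pos, hpe]
      exact fun h0 => hj ((α g⁻¹).injective h0)
    have l3 : Tendsto (fun n : ℕ => 1 / (((φ (ψ (χ n)) : ℕ) : ℝ) + 1)) atTop (𝓝 0) :=
      tendsto_one_div_add_atTop_nhds_zero_nat.comp hall
    obtain ⟨n, ⟨hn1, hn2⟩, hn3⟩ := (((l1.eventually_const_lt (half_lt_self p1)).and
      (l2.eventually_const_lt (half_lt_self p2))).and
      (l3.eventually_lt_const (lt_min (half_pos p1) (half_pos p2)))).exists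
    rcases near_or (hd n) hij with h | h
    · have h' : dist (α g⁻¹ (t (φ (ψ (χ n))) i)) p < 1 / (((φ (ψ (χ n)) : ℕ) : ℝ) + 1) := h
      have := hn3.trans_le (min_le_left _ _)
      linarith
    · have h' : dist (α g⁻¹ (t (φ (ψ (χ n))) j)) p < 1 / (((φ (ψ (χ n)) : ℕ) : ℝ) + 1) := h
      have := hn3.trans_le (min_le_right _ _)
      linarith
  · exact hR.deep_key hr (q := fun n => q (φ (ψ (χ n)))) (fun n => hq _)
      (t := fun n => t (φ (ψ (χ n)))) (i := fun _ => i) (j := fun _ => j) (fun _ => hij)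
      (fun n => (ht _).mono (min_le_left _ _)) hti htj hyt hi hj
      (Or.inr fun z => hcof.eventually (Set.finite_singleton z).compl_mem_cofinite)

/-- The data of a step through a cusp: the triple is separated before or after the step, or deep. -/
theorem step_or {p : X} (hP : Par α p) {c₃ c₇ r₄ ηh : ℝ} (hc₃ : 0 < c₃) (hc₇ : 0 < c₇)
    (hr₄ : 0 < r₄) (hηh : 0 < ηh) {ηc : ℝ} (hηc : 0 < ηc) :
    ∃ κ > 0, (∀ (a b c : X) (h : G), α h p = p → c₃ ≤ dist c p → c₇ ≤ dist c a → c₇ ≤ dist c b →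
      r₄ ≤ dist (α h a) p → ηh ≤ dist (α h a) (α h b) → Sp3 κ a b c ∨
        Sp3 κ (α h a) (α h b) (α h c) ∨
        ∀ k, α k p = p → TwoN p ηc (α k a) (α k b) (α k c)) ∧
      ∀ b c : X, c₃ ≤ dist c p → c₇ ≤ dist c b → Sp3 κ p b c ∨
        ∀ k, α k p = p → TwoN p ηc (α k p) (α k b) (α k c) := by
  classical
  have hF1 := stab_fin hP hc₃ hηc
  obtain ⟨c₅, hc₅, m5⟩ := exists_mod α hF1.toFinset hηc
  have hF2 := stab_fin hP (half_pos hc₅) hr₄
  obtain ⟨c₆, hc₆, m6⟩ := exists_mod α hF2.toFinset hηh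
  have hF3 := stab_fin hP hηc hr₄
  obtain ⟨c₈, hc₈, m8⟩ := exists_low α hF3.toFinset hηc
  set c₉ := min c₈ r₄ / 2 with hc₉d
  have hc₉ : 0 < c₉ := by
    have := lt_min hc₈ hr₄
    rw [hc₉d]; linarith
  have hF4 := stab_fin hP hc₃ hc₉
  obtain ⟨c₁₀, hc₁₀, m10⟩ := exists_low α hF4.toFinset hc₇
  have k1 : ∀ k, α k p = p → ∀ c, c₃ ≤ dist c p → ηc ≤ dist (α k c) p →
      ∀ a, ηc ≤ dist (α k a) p → c₅ < dist a p := by
    intro k hk c h1 h2 a h3
    by_contra hcon
    push Not at hcon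
    have h4 := m5 k (hF1.mem_toFinset.2 ⟨hk, c, h1, h2⟩) a p hcon
    rw [hk] at h4
    linarith
  refine ⟨min c₆ (min c₇ (min (c₅ / 2) (min c₉ (min c₁₀ (min ηh c₃))))), ?_, ?_, ?_⟩
  · refine lt_min hc₆ (lt_min hc₇ (lt_min (by positivity) (lt_min hc₉ (lt_min hc₁₀
      (lt_min hηh hc₃)))))
  · intro a b c h hh h1 h2 h3 h4 h5
    have k2 : c₅ / 2 ≤ dist a p → c₆ < dist a b := by
      intro h6
      by_contra hcon
      push Not at hcon
      have := m6 h (hF2.mem_toFinset.2 ⟨hh, a, h6, h4⟩) a b hcon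
      linarith
    have s1 : c₆ < dist a b → Sp3 (min c₆ (min c₇ (min (c₅ / 2) (min c₉ (min c₁₀
        (min ηh c₃)))))) a b c := by
      intro h6
      refine ⟨?_, ?_, ?_⟩
      · exact (min_le_left _ _).trans h6.le
      · rw [dist_comm b c]
        exact ((min_le_right _ _).trans (min_le_left _ _)).trans h3
      · rw [dist_comm a c]
        exact ((min_le_right _ _).trans (min_le_left _ _)).trans h2
    by_cases hdeep : ∀ k, α k p = p → TwoN p ηc (α k a) (α k b) (α k c)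
    · exact Or.inr (Or.inr hdeep)
    push Not at hdeep
    obtain ⟨k, hk, hkn⟩ := hdeep
    rcases not_twoN hkn with ⟨ha, hc⟩ | ⟨hb, hc⟩ | ⟨ha, hb⟩
    · left
      have := k1 k hk c h1 hc a ha
      exact s1 (k2 (by linarith))
    · left
      have h6 := k1 k hk c h1 hc b hb
      by_cases h7 : c₅ / 2 ≤ dist a b
      · refine ⟨?_, ?_, ?_⟩
        · exact ((min_le_right _ _).trans ((min_le_right _ _).trans (min_le_left _ _))).trans h7
        · rw [dist_comm b c]
          exact ((min_le_right _ _).trans (min_le_left _ _)).trans h3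
        · rw [dist_comm a c]
          exact ((min_le_right _ _).trans (min_le_left _ _)).trans h2
      · push Not at h7
        have := dist_triangle_left b p a
        exact s1 (k2 (by linarith))
    · right; left
      have e : ∀ x : X, α (h * k⁻¹) (α k x) = α h x := by
        intro x
        rw [← map_mul_apply]
        congr 2
        group
      have hg : α (h * k⁻¹) p = p := by rw [map_mul_apply, fix_inv hk, hh]
      have hg3 : h * k⁻¹ ∈ hF3.toFinset :=
        hF3.mem_toFinset.2 ⟨hg, α k a, ha, by rw [e]; exact h4⟩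
      have h6 := m8 _ hg3 (α k b) p hb
      rw [e, hg] at h6
      have key : ∀ x, c₇ ≤ dist c x → 2 * c₉ ≤ dist (α h x) p → min c₉ c₁₀ ≤
          dist (α h x) (α h c) := by
        intro x hx hxp
        by_contra hcon
        push Not at hcon
        have h7 : c₉ ≤ dist (α h c) p := by
          have := dist_triangle (α h x) (α h c) p
          have := min_le_left c₉ c₁₀
          linarith
        have h8 := m10 h (hF4.mem_toFinset.2 ⟨hh, c, h1, h7⟩) c x hx
        rw [dist_comm] at h8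
        have := min_le_right c₉ c₁₀
        linarith
      have h9 : min c₉ (min c₁₀ (min ηh c₃)) ≤ min c₉ c₁₀ :=
        le_min (min_le_left _ _) ((min_le_right _ _).trans (min_le_left _ _))
      have h10 : min c₆ (min c₇ (min (c₅ / 2) (min c₉ (min c₁₀ (min ηh c₃))))) ≤
          min c₉ (min c₁₀ (min ηh c₃)) :=
        (min_le_right _ _).trans ((min_le_right _ _).trans (min_le_right _ _))
      refine ⟨?_, ?_, ?_⟩
      · refine (h10.trans ?_).trans h5
        exact (min_le_right _ _).trans ((min_le_right _ _).trans (min_le_left _ _))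
      · refine (h10.trans h9).trans (key b h3 ?_)
        have := min_le_left c₈ r₄
        linarith
      · refine (h10.trans h9).trans (key a h2 ?_)
        have := min_le_right c₈ r₄
        linarith
  · intro b c h1 h3
    by_cases hdeep : ∀ k, α k p = p → TwoN p ηc (α k p) (α k b) (α k c)
    · exact Or.inr hdeep
    left
    push Not at hdeep
    obtain ⟨k, hk, hkn⟩ := hdeep
    have hk0 : ¬ ηc ≤ dist (α k p) p := by rw [hk, dist_self]; linarith
    rcases not_twoN hkn with ⟨ha, hc⟩ | ⟨hb, hc⟩ | ⟨ha, hb⟩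
    · exact absurd ha hk0
    · have h6 := k1 k hk c h1 hc b hb
      refine ⟨?_, ?_, ?_⟩
      · rw [dist_comm]
        have := ((min_le_right c₆ (min c₇ (min (c₅ / 2) (min c₉ (min c₁₀ (min ηh c₃)))))).trans
          ((min_le_right _ _).trans (min_le_left _ _)))
        linarith
      · rw [dist_comm b c]
        exact ((min_le_right _ _).trans (min_le_left _ _)).trans h3
      · rw [dist_comm p c]
        refine le_trans ?_ h1
        exact (min_le_right _ _).trans ((min_le_right _ _).trans ((min_le_right _ _).trans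
          ((min_le_right _ _).trans ((min_le_right _ _).trans (min_le_right _ _)))))
    · exact absurd ha hk0

end Pool.Agent.H72.Ca
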