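import Pool.Agent.H72.Ca.C4

/-!
# Comparison of two chains
-/

set_option autoImplicit false

open Filter Topology Set Metric Pool.Agent.TH289.C Pool.Agent.H72.Dj Pool.Agent.H72.Rel
open Pool.Agent.H72.Sh

namespace Pool.Agent.H72.Ca

variable {G : Type} [Group G] {X : Type} [MetricSpace X] {α : G →* (X ≃ₜ X)}
variable {Ps : Finset X}

/-- The constants of the data. -/
structure Cst where
  κ₀ : ℝ
  c₃ : ℝ
  c₇ : ℝ
  r₄ : ℝ
  ηh : ℝ
  h1 : 0 < κ₀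
  h2 : 0 < c₃
  h3 : 0 < c₇
  h4 : 0 < r₄
  h5 : 0 < ηh

/-- The position of the pseudo-orbit at a cusp. -/
def Cus (α : G →* (X ≃ₜ X)) (C : Cst) (η₂ : ℝ) (Y : G → X) (z z' : X) (p : X) (u : G) : Prop :=
  (∃ h, α h p = p ∧ dist (α (h * u) z) (Y (h * u)) < η₂ ∧ C.r₄ ≤ dist (α (h * u) z) p ∧
    C.ηh ≤ dist (α (h * u) z) (α (h * u) z')) ∨
  ((∀ h, α h p = p → Y (h * u) = p) ∧ α u z = p)

/-- What a chain with the tracing point `z` knows about another point `z'`. -/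
def Dat (α : G →* (X ≃ₜ X)) (Ps : Finset X) (C : Cst) (η₂ : ℝ) (Y : G → X) (z z' w : X) : Prop :=
  (∃ m, dist (α m z) (Y m) < η₂ ∧ Sp3 C.κ₀ (α m z) (α m z') (α m w)) ∨
  (∃ p ∈ Ps, ∃ u, dist (α u z) (Y u) < η₂ ∧ C.c₃ ≤ dist (α u w) p ∧
    C.c₇ ≤ dist (α u w) (α u z) ∧ C.c₇ ≤ dist (α u w) (α u z') ∧ Cus α C η₂ Y z z' p u)

/-- Separated marks, or a deep triple. -/
theorem dat_or [CompactSpace X] (hR : Rl α Ps) (C : Cst) {ηc : ℝ} (hηc : 0 < ηc) :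
    ∃ κ > 0, κ ≤ C.κ₀ ∧ ∀ (η₂ : ℝ) (Y : G → X) (z z' w : X), Dat α Ps C η₂ Y z z' w →
      (∃ m, dist (α m z) (Y m) < η₂ ∧ Sp3 κ (α m z) (α m z') (α m w)) ∨
      ∃ p ∈ Ps, ∃ u, DeepT α ηc p u z z' w ∧ Cus α C η₂ Y z z' p u := by
  have h1 : ∀ p : X, ∃ κ : ℝ, 0 < κ ∧ (p ∈ Ps → (∀ (a b c : X) (h : G), α h p = p →
      C.c₃ ≤ dist c p → C.c₇ ≤ dist c a → C.c₇ ≤ dist c b →
      C.r₄ ≤ dist (α h a) p → C.ηh ≤ dist (α h a) (α h b) → Sp3 κ a b c ∨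
        Sp3 κ (α h a) (α h b) (α h c) ∨
        ∀ k, α k p = p → TwoN p ηc (α k a) (α k b) (α k c)) ∧
      ∀ b c : X, C.c₃ ≤ dist c p → C.c₇ ≤ dist c b → Sp3 κ p b c ∨
        ∀ k, α k p = p → TwoN p ηc (α k p) (α k b) (α k c)) := by
    intro p
    by_cases hp : p ∈ Ps
    · obtain ⟨κ, hκ, h⟩ := step_or (hR.par p hp) C.h2 C.h3 C.h4 C.h5 hηc
      exact ⟨κ, hκ, fun _ => h⟩
    · exact ⟨1, one_pos, fun h => absurd h hp⟩
  choose κ hκ h using h1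
  obtain ⟨κ', hκ', hle⟩ : ∃ κ' : ℝ, 0 < κ' ∧ ∀ p ∈ Ps, κ' ≤ κ p := by
    rcases Ps.eq_empty_or_nonempty with he | hne
    · exact ⟨1, one_pos, fun p hp => by rw [he] at hp; simp at hp⟩
    · refine ⟨Ps.inf' hne κ, ?_, fun p hp => Finset.inf'_le κ hp⟩
      rw [Finset.lt_inf'_iff]
      exact fun p _ => hκ p
  refine ⟨min κ' C.κ₀, lt_min hκ' C.h1, min_le_right _ _, fun η₂ Y z z' w hD => ?_⟩
  rcases hD with ⟨m, hm, hs⟩ | ⟨p, hp, u, hu, h3, h4, h5, hC⟩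
  · exact Or.inl ⟨m, hm, hs.mono (min_le_right _ _)⟩
  have hmin : min κ' C.κ₀ ≤ κ p := (min_le_left _ _).trans (hle p hp)
  obtain ⟨hA, hB⟩ := h p hp
  rcases hC with ⟨k, hk, hm, h6, h7⟩ | ⟨hY, hz⟩
  · have e : ∀ x, α (k * u) x = α k (α u x) := fun x => map_mul_apply _ _ _ _
    rcases hA (α u z) (α u z') (α u w) k hk h3 h4 h5 (by rw [← e]; exact h6)
      (by rw [← e, ← e]; exact h7) with h8 | h8 | h8
    · exact Or.inl ⟨u, hu, h8.mono hmin⟩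
    · exact Or.inl ⟨k * u, hm, by rw [e, e, e]; exact h8.mono hmin⟩
    · exact Or.inr ⟨p, hp, u, h8, Or.inl ⟨k, hk, hm, h6, h7⟩⟩
  · rcases hB (α u z') (α u w) h3 h5 with h8 | h8
    · exact Or.inl ⟨u, hu, by rw [hz]; exact h8.mono hmin⟩
    · refine Or.inr ⟨p, hp, u, fun k hk => ?_, Or.inr ⟨hY, hz⟩⟩
      rw [hz]
      exact h8 k hk

/-- The elements of the stabilizers of the parabolic points that move a point far from the parabolic
point to a point far from it. -/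
theorem stab_fin_all [CompactSpace X] (hR : Rl α Ps) {c : ℝ} (hc : 0 < c) :
    ∃ V : Finset G, ∀ p ∈ Ps, ∀ h, α h p = p → ∀ w, c ≤ dist w p → c ≤ dist (α h w) p → h ∈ V := by
  classical
  have h1 : ∀ p : X, ∃ V : Finset G, p ∈ Ps → ∀ h, α h p = p → ∀ w, c ≤ dist w p →
      c ≤ dist (α h w) p → h ∈ V := by
    intro p
    by_cases hp : p ∈ Ps
    · have hf := stab_fin (hR.par p hp) hc hc
      exact ⟨hf.toFinset, fun _ h hh w h1 h2 => hf.mem_toFinset.2 ⟨hh, w, h1, h2⟩⟩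
    · exact ⟨∅, fun h => absurd h hp⟩
  choose V hV using h1
  exact ⟨Ps.biUnion V, fun p hp h hh w h1 h2 =>
    Finset.mem_biUnion.2 ⟨p, hp, hV p hp h hh w h1 h2⟩⟩

/-- Two chains with different tracing points have a common place where the points are separated. -/
theorem two_data [CompactSpace X] [Infinite X] (hR : Rl α Ps) {r₀ : ℝ} (hr₀ : Rad α Ps r₀)
    (C : Cst) : ∃ (V : Finset G) (κ : ℝ), 0 < κ ∧ ∀ (η₂ ε : ℝ) (Y : G → X) (z z' w : X),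
      η₂ ≤ C.r₄ / 4 → ε ≤ C.r₄ / 4 → z ≠ z' →
      (∀ p ∈ Ps, ∀ h, α h p = p → ∀ g, dist (α h (Y g)) (Y (h * g)) ≤ ε) →
      Dat α Ps C η₂ Y z z' w → Dat α Ps C η₂ Y z' z w →
      ∃ m m' : G, dist (α m z) (Y m) < η₂ ∧ dist (α m' z') (Y m') < η₂ ∧ m' * m⁻¹ ∈ V ∧
        κ ≤ dist (α m z) (α m z') := by
  classical
  obtain ⟨ηa, hηa, -, hdisj⟩ := hR.disj hr₀
  obtain ⟨κ₁, hκ₁, hκ₁0, hor1⟩ := dat_or hR C hηa
  obtain ⟨ηb, hηb, -, hthin⟩ := deep_thin hR hr₀ hκ₁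
  obtain ⟨κ₂, hκ₂, -, hor2⟩ := dat_or hR C hηb
  have hVf := finite_meet hR.conv hκ₂ hκ₂
  obtain ⟨V', hV'⟩ := stab_fin_all hR (show 0 < C.r₄ / 2 by linarith [C.h4])
  refine ⟨hVf.toFinset ∪ V', min κ₂ C.ηh, lt_min hκ₂ C.h5,
    fun η₂ ε Y z z' w hη₂ hε hne hper hD hD' => ?_⟩
  -- the case of a deep triple
  have deep : ∀ z z' : X, Dat α Ps C η₂ Y z z' w → Dat α Ps C η₂ Y z' z w →
      (∃ p ∈ Ps, ∃ u, DeepT α ηb p u z z' w) →
      (∃ p ∈ Ps, ∃ u, DeepT α ηa p u z z' w ∧ Cus α C η₂ Y z z' p u) ∧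
      ∃ p ∈ Ps, ∃ u, DeepT α ηa p u z z' w ∧ Cus α C η₂ Y z' z p u := by
    intro z z' hD hD' ⟨p, hp, u, hu⟩
    have ht := hthin _ (Q_inv (Ps_sub hp) u⁻¹) _ (hu.deep hR hp)
    have hno : ∀ m, ¬ Sp3 κ₁ (α m z) (α m z') (α m w) := fun m hs =>
      absurd (ht m) (not_lt.2 hs.sep)
    constructor
    · rcases hor1 _ _ _ _ _ hD with ⟨m, -, hs⟩ | h
      · exact absurd hs (hno m)
      · exact h
    · rcases hor1 _ _ _ _ _ hD' with ⟨m, -, hs⟩ | ⟨p', hp', u', h, h'⟩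
      · exact absurd hs.swap (hno m)
      · exact ⟨p', hp', u', h.swap, h'⟩
  have fin : ∀ m m', Sp3 κ₂ (α m z) (α m z') (α m w) → Sp3 κ₂ (α m' z) (α m' z') (α m' w) →
      m' * m⁻¹ ∈ hVf.toFinset := by
    intro m m' h h'
    rw [hVf.mem_toFinset]
    refine ⟨act α m ![z, z', w], h.sep, ?_⟩
    rw [← act_mul, inv_mul_cancel_right]
    exact h'.sep
  have hdeep : (∃ m m' : G, dist (α m z) (Y m) < η₂ ∧ dist (α m' z') (Y m') < η₂ ∧
        m' * m⁻¹ ∈ hVf.toFinset ∪ V' ∧ min κ₂ C.ηh ≤ dist (α m z) (α m z')) ∨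
      (∃ p ∈ Ps, ∃ u, DeepT α ηa p u z z' w ∧ Cus α C η₂ Y z z' p u) ∧
      ∃ p ∈ Ps, ∃ u, DeepT α ηa p u z z' w ∧ Cus α C η₂ Y z' z p u := by
    rcases hor2 _ _ _ _ _ hD with ⟨m, hm, hs⟩ | ⟨p, hp, u, hu, -⟩
    · rcases hor2 _ _ _ _ _ hD' with ⟨m', hm', hs'⟩ | ⟨p, hp, u, hu, -⟩
      · left
        exact ⟨m, m', hm, hm', Finset.mem_union_left _ (fin m m' hs hs'.swap),
          (min_le_left _ _).trans hs.1⟩
      · right
        exact deep z z' hD hD' ⟨p, hp, u, hu.swap⟩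
    · right
      exact deep z z' hD hD' ⟨p, hp, u, hu⟩
  rcases hdeep with h | ⟨⟨p, hp, u, hu, hC⟩, p', hp', u', hu', hC'⟩
  · exact h
  -- the cusps are the same
  have hq : α u⁻¹ p = α u'⁻¹ p' := by
    by_contra hqne
    exact hdisj _ (Q_inv (Ps_sub hp) u⁻¹) _ (Q_inv (Ps_sub hp') u'⁻¹) hqne _ (hu.deep hR hp)
      (hu'.deep hR hp')
  have hg : α (u' * u⁻¹) p = p' := by rw [map_mul_apply, hq, map_inv_apply']
  have hpp : p = p' := by
    have := hR.ineq p hp (u' * u⁻¹) (by rw [hg]; exact hp')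
    rw [← this, hg]
  subst hpp
  rcases hC with ⟨h, hh, hm, h6, h7⟩ | ⟨hY, hz⟩
  · have hYp : 3 / 4 * C.r₄ ≤ dist (Y (h * u)) p := by
      have := dist_triangle_left (α (h * u) z) p (Y (h * u))
      rw [dist_comm (Y (h * u))] at this
      linarith
    rcases hC' with ⟨h', hh', hm', h6', h7'⟩ | ⟨hY', hz'⟩
    · refine ⟨h * u, h' * u', hm, hm', Finset.mem_union_right _ ?_, (min_le_right _ _).trans h7⟩
      set g := h' * u' * (h * u)⁻¹ with hgd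
      have e1 : g = h' * (u' * u⁻¹) * h⁻¹ := by rw [hgd]; group
      have hgp : α g p = p := by
        rw [e1, map_mul_apply, map_mul_apply, fix_inv hh, hg, hh']
      have e2 : g * (h * u) = h' * u' := by rw [hgd, inv_mul_cancel_right]
      have h8 := hper p hp g hgp (h * u)
      rw [e2] at h8
      refine hV' p hp g hgp (Y (h * u)) (by linarith [C.h4]) ?_
      have h9 : 3 / 4 * C.r₄ ≤ dist (Y (h' * u')) p := by
        have := dist_triangle_left (α (h' * u') z') p (Y (h' * u'))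
        rw [dist_comm (Y (h' * u'))] at this
        linarith
      have h10 := dist_triangle_left (Y (h' * u')) p (α g (Y (h * u)))
      linarith [C.h4]
    · exfalso
      have e1 : h * u = (h * (u' * u⁻¹)⁻¹) * u' := by group
      have h8 := hY' (h * (u' * u⁻¹)⁻¹) (by rw [map_mul_apply, fix_inv hg, hh])
      rw [← e1] at h8
      rw [h8, dist_self] at hYp
      linarith [C.h4]
  · exfalso
    rcases hC' with ⟨h', hh', hm', h6', h7'⟩ | ⟨hY', hz'⟩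
    · have h9 : 3 / 4 * C.r₄ ≤ dist (Y (h' * u')) p := by
        have := dist_triangle_left (α (h' * u') z') p (Y (h' * u'))
        rw [dist_comm (Y (h' * u'))] at this
        linarith
      have e1 : h' * u' = (h' * (u' * u⁻¹)) * u := by group
      have h8 := hY (h' * (u' * u⁻¹)) (by rw [map_mul_apply, hg, hh'])
      rw [← e1] at h8
      rw [h8, dist_self] at h9
      linarith [C.h4]
    · apply hne
      have e1 : z = α u⁻¹ p := by rw [← hz, map_inv_apply]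
      have e2 : z' = α u'⁻¹ p := by rw [← hz', map_inv_apply]
      rw [e1, e2, hq]

end Pool.Agent.H72.Ca
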