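import Pool.Agent.H72.Ca.C5
import Pool.Agent.H72.Ca.C3

/-!
# Runs of a pseudo-orbit
-/

set_option autoImplicit false

open Filter Topology Set Metric Pool.Agent.TH289.C Pool.Agent.H72.Dj Pool.Agent.H72.Rel
open Pool.Agent.H72.Sh

namespace Pool.Agent.H72.Ca

variable {G : Type} [Group G] {X : Type} [MetricSpace X] {α : G →* (X ≃ₜ X)}
variable {Ps : Finset X}

/-- A run of `M` steps of the pseudo-orbit `Y`, from the frame `g₀`. -/
structure Run (α : G →* (X ≃ₜ X)) (S : Finset G) (F : Finset (G × X)) (r η e : ℝ) (Y : G → X)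
    (g₀ : G) (f t : ℕ → G) (b : ℕ → X) (s : ℕ → G) (y : ℕ → X) (M : ℕ) : Prop where
  ch : ChN α r η (2 * e) y b s M
  hy : ∀ k ≤ M, y k = α (f k) (Y ((f k)⁻¹ * (pr s k * g₀)))
  hyY : ∀ k ≤ M, dist (y k) (Y (pr s k * g₀)) ≤ e
  hst : ∀ k < M, s k = t k * (f k)⁻¹ ∧ ((f k = 1 ∧ t k ∈ S) ∨ ((f k, b k) ∈ F ∧
    α (t k) (b k) = b k ∧ dist (Y (pr s k * g₀)) (α (f k) (b k)) < η / 2))

/-- The requirements on the constants. -/
structure Req (α : G →* (X ≃ₜ X)) (S : Finset G) (F : Finset (G × X)) (r η η₁ η₂ e : ℝ)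
    (C : Cst) : Prop where
  r0 : 0 < r
  η0 : 0 < η
  ηr : η ≤ r
  a1 : η₁ ≤ η / 2
  e0 : 0 ≤ e
  a2 : η₁ + e ≤ η₂
  a3 : e ≤ η / 2
  m1 : ∀ a ∈ F, ∀ p q : X, dist p q ≤ η₁ → dist (α a.1⁻¹ p) (α a.1⁻¹ q) < η₂
  k0 : C.κ₀ ≤ η / 2
  k1 : C.κ₀ ≤ 3 * r
  k2 : ∀ s ∈ S, ∀ p q : X, 3 * η ≤ dist p q → C.κ₀ ≤ dist (α s p) (α s q)
  k3 : ∀ a ∈ F, ∀ p q : X, 3 * η ≤ dist p q → C.c₃ ≤ dist (α a.1⁻¹ p) (α a.1⁻¹ q)
  k4 : ∀ a ∈ F, ∀ p q : X, 3 * η ≤ dist p q → C.c₇ ≤ dist (α a.1⁻¹ p) (α a.1⁻¹ q)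
  k5 : C.r₄ = 4 * r
  k6 : C.ηh = η / 2

variable {S : Finset G} {F : Finset (G × X)} {r η η₁ η₂ e : ℝ} {C : Cst}
variable {Y : G → X} {g₀ : G} {f t : ℕ → G} {b : ℕ → X} {s : ℕ → G} {y : ℕ → X} {M : ℕ}

theorem Run.far (hRun : Run α S F r η e Y g₀ f t b s y M) (hq : Req α S F r η η₁ η₂ e C) {w : X}
    (hw : 4 * η ≤ dist (α g₀ w) (y 0)) (j : ℕ) (hj : j ≤ M) :
    4 * η ≤ dist (α (pr s j * g₀) w) (y j) := by
  rw [map_mul_apply]
  have h0 : ∀ x : X, α (pr s 0) x = x := fun x => by rw [pr_zero, map_one]; rfl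
  have her : 2 * e ≤ r := by linarith [hq.a3, hq.ηr]
  rcases Nat.eq_zero_or_pos j with h | h
  · subst h
    rw [h0]
    exact hw
  · obtain ⟨i, rfl⟩ : ∃ i, j = i + 1 := ⟨j - 1, by omega⟩
    have := (hRun.ch.out_all her hq.r0 hq.ηr (j := 0) (w := α g₀ w)
      (by rw [h0]; linarith [hq.η0]) i (Nat.zero_le i) (by omega)).2
    linarith [hq.ηr]

/-- The data at the place where `z'` leaves the run. -/
theorem Run.dat_leave (hRun : Run α S F r η e Y g₀ f t b s y M) (hq : Req α S F r η η₁ η₂ e C)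
    (hF : ∀ a ∈ F, a.2 ∈ Ps) {z z' w : X}
    (hz : ∀ k ≤ M, dist (α (pr s k * g₀) z) (y k) < η₁)
    (hw : 4 * η ≤ dist (α g₀ w) (y 0)) {j : ℕ} (hj : j + 1 ≤ M)
    (hj1 : dist (α (pr s j * g₀) z') (y j) < η)
    (hj2 : η ≤ dist (α (pr s (j + 1) * g₀) z') (y (j + 1))) : Dat α Ps C η₂ Y z z' w := by
  have her : 2 * e ≤ r := by linarith [hq.a3, hq.ηr]
  have hr := hq.r0
  have hη := hq.η0
  have hηr := hq.ηr
  have hη₁ := hq.a1
  have hzj := hz j (by omega)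
  have hzk := hz (j + 1) hj
  have hwj := hRun.far hq hw j (by omega)
  set zj := α (pr s j * g₀) z with hzjd
  set zj' := α (pr s j * g₀) z' with hzjd'
  set wj := α (pr s j * g₀) w with hwjd
  have d1 : 3 * η ≤ dist wj zj := by
    have := dist_triangle wj zj (y j)
    linarith
  have d2 : 3 * η ≤ dist wj zj' := by
    have := dist_triangle wj zj' (y j)
    linarith
  have hstep : ∀ x, α (pr s (j + 1) * g₀) x = α (s j) (α (pr s j * g₀) x) := by
    intro x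
    rw [pr_succ, mul_assoc, map_mul_apply]
  have hout := (hRun.ch.out her (k := j) (by omega) (w := wj) (by linarith)).2
  have hfar := hRun.ch.far her (k := j) (by omega)
  set zk := α (pr s (j + 1) * g₀) z with hzkd
  set zk' := α (pr s (j + 1) * g₀) z' with hzkd'
  have hwk : α (pr s (j + 1) * g₀) w = α (s j) wj := hstep w
  have d3 : η / 2 ≤ dist zk zk' := by
    have := dist_triangle_left zk' (y (j + 1)) zk
    linarith
  have hmark : dist zk (Y (pr s (j + 1) * g₀)) < η₂ := by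
    have h1 := dist_triangle zk (y (j + 1)) (Y (pr s (j + 1) * g₀))
    have h2 := hRun.hyY (j + 1) hj
    linarith [hq.a2]
  obtain ⟨hs, hcase⟩ := hRun.hst j (by omega)
  rcases hcase with ⟨hf, ht⟩ | ⟨hf, ht, hYf⟩
  · left
    refine ⟨pr s (j + 1) * g₀, hmark, ?_, ?_, ?_⟩
    · exact hq.k0.trans d3
    · rw [hwk, hstep]
      have e1 : s j = t j := by rw [hs, hf]; simp
      rw [e1]
      have := hq.k2 (t j) ht wj zj' d2
      rw [dist_comm] at this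
      exact this
    · rw [hwk]
      have h1 := dist_triangle_left (α (s j) wj) (y (j + 1)) zk
      linarith [hq.k1]
  · right
    have hp : b j ∈ Ps := hF _ hf
    have hyj := hRun.hy j (by omega)
    refine ⟨b j, hp, (f j)⁻¹ * (pr s j * g₀), ?_, ?_, ?_, ?_, Or.inl ⟨t j, ht, ?_, ?_, ?_⟩⟩
    · rw [map_mul_apply]
      have h1 := hq.m1 _ hf zj (y j) hzj.le
      have h2 : α (f j)⁻¹ (y j) = Y ((f j)⁻¹ * (pr s j * g₀)) := by rw [hyj, map_inv_apply]
      rw [h2] at h1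
      exact h1
    · rw [map_mul_apply]
      have h1 : 3 * η ≤ dist wj (α (f j) (b j)) := by
        have h2 := dist_triangle4 wj (α (f j) (b j)) (Y (pr s j * g₀)) (y j)
        have h3 := hRun.hyY j (by omega)
        rw [dist_comm (Y (pr s j * g₀)) (y j), dist_comm (α (f j) (b j))] at h2
        linarith [hq.a3]
      have h2 := hq.k3 _ hf _ _ h1
      rw [map_inv_apply] at h2
      exact h2
    · rw [map_mul_apply α (f j)⁻¹ (pr s j * g₀) w, map_mul_apply α (f j)⁻¹ (pr s j * g₀) z]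
      exact hq.k4 _ hf _ _ d1
    · rw [map_mul_apply α (f j)⁻¹ (pr s j * g₀) w, map_mul_apply α (f j)⁻¹ (pr s j * g₀) z']
      exact hq.k4 _ hf _ _ d2
    · have e1 : t j * ((f j)⁻¹ * (pr s j * g₀)) = pr s (j + 1) * g₀ := by
        rw [pr_succ, hs]; group
      rw [e1]
      exact hmark
    · have e1 : t j * ((f j)⁻¹ * (pr s j * g₀)) = pr s (j + 1) * g₀ := by
        rw [pr_succ, hs]; group
      rw [e1, hq.k5]
      have h1 := dist_triangle_left (y (j + 1)) (b j) zk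
      linarith
    · have e1 : t j * ((f j)⁻¹ * (pr s j * g₀)) = pr s (j + 1) * g₀ := by
        rw [pr_succ, hs]; group
      rw [e1, hq.k6]
      exact d3

/-- The data at the end of a run at a cusp. -/
theorem Run.dat_end (hRun : Run α S F r η e Y g₀ f t b s y M) (hq : Req α S F r η η₁ η₂ e C)
    (hF : ∀ a ∈ F, a.2 ∈ Ps) {z z' w p : X} (hη₂ : 0 < η₂)
    (hw : 4 * η ≤ dist (α g₀ w) (y 0)) (hp : (f M, p) ∈ F)
    (hY : ∀ h, α h p = p → Y (h * ((f M)⁻¹ * (pr s M * g₀))) = p)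
    (hz : α (pr s M * g₀) z = y M) (hz' : dist (α (pr s M * g₀) z') (y M) < η) :
    Dat α Ps C η₂ Y z z' w := by
  right
  have hyM := hRun.hy M le_rfl
  have hY1 : Y ((f M)⁻¹ * (pr s M * g₀)) = p := by
    have := hY 1 (by rw [map_one]; rfl)
    rwa [one_mul] at this
  rw [hY1] at hyM
  have hwM := hRun.far hq hw M le_rfl
  have hη := hq.η0
  have hzp : α ((f M)⁻¹ * (pr s M * g₀)) z = p := by
    rw [map_mul_apply, hz, hyM, map_inv_apply]
  have h1 : C.c₃ ≤ dist (α ((f M)⁻¹ * (pr s M * g₀)) w) p := by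
    rw [map_mul_apply]
    have h2 := hq.k3 _ hp (α (pr s M * g₀) w) (y M) (by linarith)
    rw [hyM, map_inv_apply] at h2
    exact h2
  refine ⟨p, hF _ hp, (f M)⁻¹ * (pr s M * g₀), ?_, h1, ?_, ?_, Or.inr ⟨hY, hzp⟩⟩
  · rw [hzp, hY1, dist_self]
    exact hη₂
  · rw [map_mul_apply α (f M)⁻¹ (pr s M * g₀) w, map_mul_apply α (f M)⁻¹ (pr s M * g₀) z]
    refine hq.k4 _ hp _ _ ?_
    rw [hz]
    linarith
  · rw [map_mul_apply α (f M)⁻¹ (pr s M * g₀) w, map_mul_apply α (f M)⁻¹ (pr s M * g₀) z']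
    refine hq.k4 _ hp _ _ ?_
    have := dist_triangle (α (pr s M * g₀) w) (α (pr s M * g₀) z') (y M)
    linarith

end Pool.Agent.H72.Ca
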