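import Pool.Agent.H72.Ca.C6
import Pool.Agent.H72.Ca.C2

/-!
# Tracing points of a pseudo-orbit
-/

set_option autoImplicit false

open Filter Topology Set Metric Pool.Agent.TH289.C Pool.Agent.H72.Dj Pool.Agent.H72.Rel
open Pool.Agent.H72.Sh

namespace Pool.Agent.H72.Ca

variable {G : Type} [Group G] {X : Type} [MetricSpace X] {α : G →* (X ≃ₜ X)}
variable {Ps : Finset X} {S : Finset G} {F : Finset (G × X)} {r η e c : ℝ} {Y : G → X}

/-- The choice of a step. -/
theorem exists_choice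
    (hS : ∀ y, (∃ s ∈ S, ∃ b, Ex α r η y s b) ∨ ∃ a ∈ F, dist y (α a.1 a.2) < η / 2 ∧
        ∀ y', dist y' y ≤ c → y' ≠ α a.1 a.2 →
          ∃ h, α h a.2 = a.2 ∧ Ex α r η y' (h * a.1⁻¹) a.2) (hec : e ≤ c) (he : 0 ≤ e)
    (hYF : ∀ a ∈ F, ∀ g, dist (α a.1 (Y g)) (Y (a.1 * g)) ≤ e) (g : G) :
    ∃ (f t : G) (b : X), dist (α f (Y (f⁻¹ * g))) (Y g) ≤ e ∧
      ((Ex α r η (α f (Y (f⁻¹ * g))) (t * f⁻¹) b ∧ ((f = 1 ∧ t ∈ S) ∨ ((f, b) ∈ F ∧
        α t b = b ∧ dist (Y g) (α f b) < η / 2))) ∨ ((f, b) ∈ F ∧ Y (f⁻¹ * g) = b)) := by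
  rcases hS (Y g) with ⟨s, hs, b, hb⟩ | ⟨⟨f, p⟩, ha, hd, h⟩
  · have e1 : α 1 (Y (1⁻¹ * g)) = Y g := by rw [inv_one, one_mul, map_one]; rfl
    refine ⟨1, s, b, ?_, Or.inl ⟨?_, Or.inl ⟨rfl, hs⟩⟩⟩
    · rw [e1, dist_self]; exact he
    · rw [e1, inv_one, mul_one]; exact hb
  · simp only at hd h
    have h1 := hYF _ ha (f⁻¹ * g)
    simp only [mul_inv_cancel_left] at h1
    by_cases hp : Y (f⁻¹ * g) = p
    · exact ⟨f, 1, p, h1, Or.inr ⟨ha, hp⟩⟩
    · obtain ⟨k, hk, hk'⟩ := h (α f (Y (f⁻¹ * g))) (h1.trans hec)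
        (fun h0 => hp ((α f).injective h0))
      exact ⟨f, k, p, h1, Or.inl ⟨hk', Or.inr ⟨ha, hk, hd⟩⟩⟩

/-- Runs from a given frame: infinite, or ending at a cusp. -/
theorem exists_run
    (hS : ∀ y, (∃ s ∈ S, ∃ b, Ex α r η y s b) ∨ ∃ a ∈ F, dist y (α a.1 a.2) < η / 2 ∧
        ∀ y', dist y' y ≤ c → y' ≠ α a.1 a.2 →
          ∃ h, α h a.2 = a.2 ∧ Ex α r η y' (h * a.1⁻¹) a.2) (hec : e ≤ c) (he : 0 ≤ e)
    (hF : ∀ a ∈ F, a.2 ∈ Ps)
    (hYS : ∀ s ∈ S, ∀ g, dist (α s (Y g)) (Y (s * g)) ≤ e)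
    (hYF : ∀ a ∈ F, ∀ g, dist (α a.1 (Y g)) (Y (a.1 * g)) ≤ e)
    (hYP : ∀ p ∈ Ps, ∀ h, α h p = p → ∀ g, dist (α h (Y g)) (Y (h * g)) ≤ e) (g₀ : G) :
    ∃ (f t : ℕ → G) (b : ℕ → X) (s : ℕ → G) (y : ℕ → X),
      (∀ M, Run α S F r η e Y g₀ f t b s y M) ∨
      ∃ M, Run α S F r η e Y g₀ f t b s y M ∧ (f M, b M) ∈ F ∧
        Y ((f M)⁻¹ * (pr s M * g₀)) = b M := by
  classical
  choose f t b h1 h2 using exists_choice (α := α) hS hec he hYF
  let gs : ℕ → G := fun k => Nat.rec g₀ (fun _ g => t g * (f g)⁻¹ * g) k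
  have hgs0 : gs 0 = g₀ := rfl
  have hgs : ∀ k, gs (k + 1) = t (gs k) * (f (gs k))⁻¹ * gs k := fun k => rfl
  have hpr : ∀ k, pr (fun k => t (gs k) * (f (gs k))⁻¹) k * g₀ = gs k := by
    intro k
    induction k with
    | zero => rw [pr_zero, one_mul, hgs0]
    | succ k ih => rw [pr_succ, mul_assoc, ih, hgs]
  set N : G → Prop := fun g => Ex α r η (α (f g) (Y ((f g)⁻¹ * g))) (t g * (f g)⁻¹) (b g) ∧
    ((f g = 1 ∧ t g ∈ S) ∨ ((f g, b g) ∈ F ∧ α (t g) (b g) = b g ∧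
      dist (Y g) (α (f g) (b g)) < η / 2)) with hN
  have hrun : ∀ M, (∀ k < M, N (gs k)) → Run α S F r η e Y g₀ (fun k => f (gs k))
      (fun k => t (gs k)) (fun k => b (gs k)) (fun k => t (gs k) * (f (gs k))⁻¹)
      (fun k => α (f (gs k)) (Y ((f (gs k))⁻¹ * gs k))) M := by
    intro M hM
    refine ⟨⟨fun k hk => (hM k hk).1, fun k hk => ?_⟩, fun k _ => ?_, fun k _ => ?_,
      fun k hk => ⟨rfl, ?_⟩⟩
    · have e1 : α (t (gs k) * (f (gs k))⁻¹) (α (f (gs k)) (Y ((f (gs k))⁻¹ * gs k))) =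
          α (t (gs k)) (Y ((f (gs k))⁻¹ * gs k)) := by
        rw [map_mul_apply, map_inv_apply]
      have e2 : dist (α (t (gs k)) (Y ((f (gs k))⁻¹ * gs k))) (Y (gs (k + 1))) ≤ e := by
        rw [hgs, mul_assoc]
        rcases (hM k hk).2 with ⟨-, h3⟩ | ⟨h3, h4, -⟩
        · exact hYS _ h3 _
        · exact hYP _ (hF _ h3) _ h4 _
      have e3 := h1 (gs (k + 1))
      rw [e1]
      have := dist_triangle_right (α (t (gs k)) (Y ((f (gs k))⁻¹ * gs k)))
        (α (f (gs (k + 1))) (Y ((f (gs (k + 1)))⁻¹ * gs (k + 1)))) (Y (gs (k + 1)))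
      linarith
    · rw [hpr]
    · rw [hpr]
      exact h1 _
    · rw [hpr]
      exact (hM k hk).2
  refine ⟨fun k => f (gs k), fun k => t (gs k), fun k => b (gs k),
    fun k => t (gs k) * (f (gs k))⁻¹, fun k => α (f (gs k)) (Y ((f (gs k))⁻¹ * gs k)), ?_⟩
  by_cases hall : ∀ k, N (gs k)
  · exact Or.inl fun M => hrun M fun k _ => hall k
  · right
    push Not at hall
    refine ⟨Nat.find hall, hrun _ fun k hk => ?_, ?_⟩
    · have := Nat.find_min hall hk
      push Not at this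
      exact this
    · have h3 := Nat.find_spec hall
      rcases h2 (gs (Nat.find hall)) with h4 | ⟨h4, h5⟩
      · exact absurd h4 h3
      · refine ⟨h4, ?_⟩
        rw [hpr]
        exact h5

variable [CompactSpace X] {r₀ η₁ η₂ e₀ : ℝ} {C : Cst} {m : ℕ} {w₃ : Fin 3 → X}

/-- The tracing point. -/
theorem track (hR : Rl α Ps) (hr₀ : Rad α Ps r₀) (hq : Req α S F r η η₁ η₂ e C)
    (hF : ∀ a ∈ F, a.2 ∈ Ps) (hη₁ : 0 < η₁) (hw₃ : Wide r w₃)
    (hacc : ∀ (y b : ℕ → X) (s : ℕ → G) (M : ℕ), ChN α r η e₀ y b s M → ∀ x : X,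
        dist (α (pr s M) x) (y M) ≤ 2 * r → ∀ k ≤ M, (k + m ≤ M ∨ α (pr s M) x = y M) →
        dist (α (pr s k) x) (y k) < η₁) (he₀ : 2 * e ≤ e₀) (hrr : 3 * r < r₀)
    (hS : ∀ y, (∃ s ∈ S, ∃ b, Ex α r η y s b) ∨ ∃ a ∈ F, dist y (α a.1 a.2) < η / 2 ∧
        ∀ y', dist y' y ≤ c → y' ≠ α a.1 a.2 →
          ∃ h, α h a.2 = a.2 ∧ Ex α r η y' (h * a.1⁻¹) a.2) (hec : e ≤ c)
    (hYS : ∀ s ∈ S, ∀ g, dist (α s (Y g)) (Y (s * g)) ≤ e)
    (hYF : ∀ a ∈ F, ∀ g, dist (α a.1 (Y g)) (Y (a.1 * g)) ≤ e)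
    (hYP : ∀ p ∈ Ps, ∀ h, α h p = p → ∀ g, dist (α h (Y g)) (Y (h * g)) ≤ e) (g₀ : G) :
    ∃ z, dist (α g₀ z) (Y g₀) < η₂ ∧
      (∀ z' w, z ≠ z' → dist (α g₀ z') (Y g₀) < η / 2 → 5 * η ≤ dist (α g₀ w) (Y g₀) →
        Dat α Ps C η₂ Y z z' w) ∧
      ∀ z', (∀ g, dist (α g z') (Y g) ≤ r) → z' = z := by
  classical
  have hr := hq.r0
  have hη := hq.η0
  have hηr := hq.ηr
  have he := hq.e0
  have her : 2 * e ≤ r := by linarith [hq.a3]
  have h0 : ∀ (s : ℕ → G) (x : X), α (pr s 0) x = x := fun s x => by rw [pr_zero, map_one]; rfl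
  obtain ⟨f, t, b, s, y, hrun⟩ := exists_run (Ps := Ps) hS hec he hF hYS hYF hYP g₀
  have hy0 : dist (y 0) (Y g₀) ≤ e := by
    rcases hrun with h | ⟨M, h, -⟩
    · have := (h 0).hyY 0 le_rfl
      rwa [pr_zero, one_mul] at this
    · have := h.hyY 0 (Nat.zero_le _)
      rwa [pr_zero, one_mul] at this
  rcases hrun with hrun | ⟨M, hrun, hbM, hYM⟩
  · -- an infinite run
    have hch : Ch α r η y b s := ⟨fun k => (hrun (k + 1)).ch.ex k (Nat.lt_succ_self k),
      fun k => ((hrun (k + 1)).ch.near k (Nat.lt_succ_self k)).trans her⟩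
    obtain ⟨x, hx⟩ := hch.exists hr hηr
    have hxa : ∀ k, dist (α (pr s k) x) (y k) < η₁ := fun k =>
      hacc y b s (k + m) ((hrun _).ch.monoe he₀) x (hx _) k (by omega) (Or.inl le_rfl)
    have ez : ∀ k, α (pr s k * g₀) (α g₀⁻¹ x) = α (pr s k) x := fun k => by
      rw [map_mul_apply, map_inv_apply']
    refine ⟨α g₀⁻¹ x, ?_, fun z' w hne hz' hw => ?_, fun z' hz' => ?_⟩
    · rw [map_inv_apply']
      have h1 := hxa 0
      rw [h0] at h1
      have := dist_triangle x (y 0) (Y g₀)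
      linarith [hq.a2]
    · have hz0 : dist (α g₀ z') (y 0) < η := by
        have := dist_triangle_right (α g₀ z') (y 0) (Y g₀)
        linarith [hq.a3]
      have hw0 : 4 * η ≤ dist (α g₀ w) (y 0) := by
        have := dist_triangle (α g₀ w) (y 0) (Y g₀)
        linarith [hq.a3]
      have hex : ∃ k, η ≤ dist (α (pr s k * g₀) z') (y k) := by
        by_contra hcon
        push Not at hcon
        apply hne
        have h1 : x = α g₀ z' := by
          refine hch.unique hR.conv hr hηr hw₃ hx fun k => ?_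
          have := hcon k
          rw [map_mul_apply] at this
          linarith
        rw [h1, map_inv_apply]
      obtain ⟨k, hk⟩ : ∃ k, Nat.find hex = k + 1 := by
        refine ⟨Nat.find hex - 1, ?_⟩
        have : Nat.find hex ≠ 0 := by
          intro h1
          have h2 := Nat.find_spec hex
          rw [h1, pr_zero, one_mul] at h2
          linarith
        omega
      have h1 := Nat.find_spec hex
      rw [hk] at h1
      have h2 := Nat.find_min hex (m := k) (by omega)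
      push Not at h2
      exact (hrun (k + 1)).dat_leave hq hF (fun i _ => by rw [ez]; exact hxa i) hw0 le_rfl h2 h1
    · have h1 : α g₀ z' = x := by
        refine hch.unique hR.conv hr hηr hw₃ (fun k => ?_) hx
        have h2 := hz' (pr s k * g₀)
        rw [map_mul_apply] at h2
        have h3 := (hrun k).hyY k le_rfl
        have := dist_triangle_right (α (pr s k) (α g₀ z')) (y k) (Y (pr s k * g₀))
        linarith
      rw [← h1, map_inv_apply]
  · -- a run that ends at a cusp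
    set x := α (pr s M)⁻¹ (y M) with hxd
    have hxM : α (pr s M) x = y M := by rw [hxd, map_inv_apply']
    have hxa : ∀ k ≤ M, dist (α (pr s k) x) (y k) < η₁ := fun k hk =>
      hacc y b s M (hrun.ch.monoe he₀) x (by rw [hxM, dist_self]; positivity) k hk (Or.inr hxM)
    have ez : ∀ k, α (pr s k * g₀) (α g₀⁻¹ x) = α (pr s k) x := fun k => by
      rw [map_mul_apply, map_inv_apply']
    have hp := hF _ hbM
    obtain ⟨K, hK, hKr, hKc⟩ := hr₀.ex _ hp
    have hall : ∀ h, α h (b M) = b M → Y (h * ((f M)⁻¹ * (pr s M * g₀))) = b M := by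
      intro h hh
      by_contra hne
      obtain ⟨k, hk, hkK⟩ := hKc _ hne
      have h1 := hKr _ hkK
      have h2 := hYP _ hp k hk (h * ((f M)⁻¹ * (pr s M * g₀)))
      have h3 := hYP _ hp (k * h) (by rw [map_mul_apply, hh, hk]) ((f M)⁻¹ * (pr s M * g₀))
      rw [hYM, map_mul_apply, hh, hk, mul_assoc] at h3
      have := dist_triangle_right (α k (Y (h * ((f M)⁻¹ * (pr s M * g₀))))) (b M)
        (Y (k * (h * ((f M)⁻¹ * (pr s M * g₀)))))
      linarith
    refine ⟨α g₀⁻¹ x, ?_, fun z' w hne hz' hw => ?_, fun z' hz' => ?_⟩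
    · rw [map_inv_apply']
      have h1 := hxa 0 (Nat.zero_le _)
      rw [h0] at h1
      have := dist_triangle x (y 0) (Y g₀)
      linarith [hq.a2]
    · have hz0 : dist (α g₀ z') (y 0) < η := by
        have := dist_triangle_right (α g₀ z') (y 0) (Y g₀)
        linarith [hq.a3]
      have hw0 : 4 * η ≤ dist (α g₀ w) (y 0) := by
        have := dist_triangle (α g₀ w) (y 0) (Y g₀)
        linarith [hq.a3]
      by_cases hex : ∃ k, k ≤ M ∧ η ≤ dist (α (pr s k * g₀) z') (y k)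
      · obtain ⟨k, hk⟩ : ∃ k, Nat.find hex = k + 1 := by
          refine ⟨Nat.find hex - 1, ?_⟩
          have : Nat.find hex ≠ 0 := by
            intro h1
            have h2 := (Nat.find_spec hex).2
            rw [h1, pr_zero, one_mul] at h2
            linarith
          omega
        have h1 := Nat.find_spec hex
        rw [hk] at h1
        have h2 := Nat.find_min hex (m := k) (by omega)
        rw [not_and_or, not_le, not_le] at h2
        have h3 := h2.resolve_left (by omega)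
        exact hrun.dat_leave hq hF (fun i hi => by rw [ez]; exact hxa i hi) hw0 h1.1 h3 h1.2
      · push Not at hex
        exact hrun.dat_end hq hF (by linarith [hq.a2]) hw0 hbM hall (by rw [ez, hxM])
          (hex M le_rfl)
    · set u := (f M)⁻¹ * (pr s M * g₀) with hu
      have hyM := hrun.hy M le_rfl
      rw [← hu, hYM] at hyM
      have h1 : α u z' = b M := by
        by_contra hne
        obtain ⟨k, hk, hkK⟩ := hKc _ hne
        have h2 := hKr _ hkK
        have h3 := hz' (k * u)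
        rw [hall k hk, map_mul_apply] at h3
        linarith
      have h2 : α (pr s M * g₀) z' = y M := by
        rw [hyM, ← h1, ← map_mul_apply]
        congr 2
        rw [hu]; group
      rw [hxd, ← h2, map_mul_apply, map_inv_apply, map_inv_apply]

end Pool.Agent.H72.Ca
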