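import Pool.Agent.H72.Ca.C7
import Pool.Agent.H72.Sh.S4

/-!
# Shadowing for relatively hyperbolic boundary actions
-/

set_option autoImplicit false

open Filter Topology Set Metric Pool.Agent.TH289.C Pool.Agent.H72.Dj Pool.Agent.H72.Rel
open Pool.Agent.H72.Sh

namespace Pool.Agent.H72.Ca

variable {G : Type} [Group G] {X : Type} [MetricSpace X] [CompactSpace X] {α : G →* (X ≃ₜ X)}
variable {Ps : Finset X}

/-- The common place of two chains gives a contradiction. -/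
theorem no_common {V : Finset G} {κ lam η₂ e : ℝ} {Y : G → X}
    (hlow : ∀ v ∈ V, ∀ p q : X, κ ≤ dist p q → lam ≤ dist (α v p) (α v q))
    (hmod : ∀ v ∈ V, ∀ p q : X, dist p q ≤ η₂ → dist (α v p) (α v q) < lam / 4)
    (hη₂ : η₂ ≤ lam / 4) (he : e ≤ lam / 4) (hlam : 0 < lam)
    (hY : ∀ v ∈ V, ∀ g, dist (α v (Y g)) (Y (v * g)) ≤ e) {z z' : X} {m m' : G}
    (h1 : dist (α m z) (Y m) < η₂) (h2 : dist (α m' z') (Y m') < η₂) (h3 : m' * m⁻¹ ∈ V)
    (h4 : κ ≤ dist (α m z) (α m z')) : False := by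
  set v := m' * m⁻¹ with hv
  have e1 : ∀ x, α v (α m x) = α m' x := by
    intro x
    rw [← map_mul_apply]
    congr 2
    rw [hv]; group
  have e2 : v * m = m' := by rw [hv]; group
  have h5 := hlow v h3 _ _ h4
  have h6 := hmod v h3 _ _ h1.le
  have h7 := hY v h3 m
  rw [e1, e1] at h5
  rw [e1] at h6
  rw [e2] at h7
  have h8 := dist_triangle4 (α m' z) (α v (Y m)) (Y m') (α m' z')
  rw [dist_comm (Y m')] at h8
  linarith

/-- **Shadowing of approximate orbits**, relatively hyperbolic case. -/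
theorem shadowC [Infinite X] (hR : Rl α Ps) (hC : Cusp α Ps) (hperf : ∀ x : X, (𝓝[≠] x).NeBot)
    (T : Finset G) (hT : Subgroup.closure (T : Set G) = ⊤) :
    ∃ r > 0, ∀ δ > 0, ∃ ε > 0, ∃ P : Finset G, ∀ Y : G → X,
      (∀ s ∈ P, ∀ g, dist (α s (Y g)) (Y (s * g)) ≤ ε) →
      (∀ p ∈ Ps, ∀ h, α h p = p → ∀ g, dist (α h (Y g)) (Y (h * g)) ≤ ε) →
      ∃ x, (∀ g, dist (α g x) (Y g) < δ) ∧
        ∀ x', (∀ g, dist (α g x') (Y g) ≤ r) → x' = x := by
  classical
  obtain ⟨r₀, hr₀0, hr₀ex⟩ := hR.exists_r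
  have hr₀ : Rad α Ps r₀ := ⟨hr₀0, hr₀ex⟩
  obtain ⟨ε₀, hε₀, hcon⟩ := con_or hR hC hperf hr₀
  obtain ⟨w₃, r₁, hr₁, hw₁⟩ := exists_wide (X := X)
  obtain ⟨r, hr, hrr1, hrε, hrr⟩ : ∃ r : ℝ, 0 < r ∧ r ≤ r₁ ∧ 6 * r < ε₀ ∧ 3 * r < r₀ := by
    refine ⟨min r₁ (min (ε₀ / 7) (r₀ / 4)), lt_min hr₁ (lt_min (by positivity) (by positivity)),
      min_le_left _ _, ?_, ?_⟩
    · have := (min_le_right r₁ (min (ε₀ / 7) (r₀ / 4))).trans (min_le_left _ _)
      linarith
    · have := (min_le_right r₁ (min (ε₀ / 7) (r₀ / 4))).trans (min_le_right _ _)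
      linarith
  have hw₃ : Wide r w₃ := fun i j hij => by
    have := hw₁ i j hij
    linarith
  obtain ⟨κT, hκT, hTlow⟩ := exists_low α T hr
  refine ⟨r, hr, fun δ hδ => ?_⟩
  obtain ⟨η, hη, hηr, hηT⟩ : ∃ η : ℝ, 0 < η ∧ η ≤ r / 5 ∧ η ≤ κT / 6 :=
    ⟨min (r / 5) (κT / 6), lt_min (by positivity) (by positivity), min_le_left _ _,
      min_le_right _ _⟩
  obtain ⟨S, F, c, hc, hF, hS⟩ := exists_steps hR hcon hr₀ hr hrε hrr hη
  obtain ⟨κS, hκS, hSlow⟩ := exists_low α S (show 0 < 3 * η by positivity)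
  obtain ⟨κF, hκF, hFlow⟩ := exists_low α (F.image fun a => a.1⁻¹) (show 0 < 3 * η by positivity)
  have hFlow' : ∀ a ∈ F, ∀ p q : X, 3 * η ≤ dist p q → κF ≤ dist (α a.1⁻¹ p) (α a.1⁻¹ q) :=
    fun a ha => hFlow _ (Finset.mem_image_of_mem _ ha)
  set C : Cst := ⟨min (η / 2) (min (3 * r) κS), κF, κF, 4 * r, η / 2,
    lt_min (by positivity) (lt_min (by positivity) hκS), hκF, hκF, by positivity,
    by positivity⟩ with hCdef
  obtain ⟨V, κ, hκ, hdata⟩ := two_data hR hr₀ C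
  obtain ⟨lam, hlam, hVlow⟩ := exists_low α V hκ
  obtain ⟨dV, hdV, hVmod⟩ := exists_mod α V (show 0 < lam / 4 by positivity)
  obtain ⟨dT, hdT, hTmod⟩ := exists_mod α (T ∪ T.image fun g => g⁻¹)
    (show 0 < η / 4 by positivity)
  obtain ⟨η₂, hη₂, b1, b2, b3, b4, b5, b6⟩ : ∃ η₂ : ℝ, 0 < η₂ ∧ η₂ ≤ δ ∧ η₂ ≤ r ∧
      η₂ ≤ lam / 4 ∧ η₂ ≤ dV ∧ 2 * η₂ ≤ dT ∧ η₂ ≤ η / 4 := by
    refine ⟨min δ (min r (min (lam / 4) (min dV (min (dT / 2) (η / 4))))),
      lt_min hδ (lt_min hr (lt_min (by positivity) (lt_min hdV (lt_min (by positivity)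
      (by positivity))))), min_le_left _ _, (min_le_right _ _).trans (min_le_left _ _),
      (min_le_right _ _).trans ((min_le_right _ _).trans (min_le_left _ _)),
      (min_le_right _ _).trans ((min_le_right _ _).trans ((min_le_right _ _).trans
        (min_le_left _ _))), ?_, (min_le_right _ _).trans ((min_le_right _ _).trans
        ((min_le_right _ _).trans ((min_le_right _ _).trans (min_le_right _ _))))⟩
    have h1 : min δ (min r (min (lam / 4) (min dV (min (dT / 2) (η / 4))))) ≤ dT / 2 :=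
      (min_le_right _ _).trans ((min_le_right _ _).trans ((min_le_right _ _).trans
        ((min_le_right _ _).trans (min_le_left _ _))))
    linarith
  obtain ⟨dF, hdF, hFmod⟩ := exists_mod α (F.image fun a => a.1⁻¹) hη₂
  obtain ⟨η₁, hη₁, c1, c2, c3⟩ : ∃ η₁ : ℝ, 0 < η₁ ∧ η₁ ≤ η / 2 ∧ η₁ ≤ η₂ / 2 ∧ η₁ ≤ dF :=
    ⟨min (η / 2) (min (η₂ / 2) dF), lt_min (by positivity) (lt_min (by positivity) hdF),
      min_le_left _ _, (min_le_right _ _).trans (min_le_left _ _),
      (min_le_right _ _).trans (min_le_right _ _)⟩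
  obtain ⟨e₀, m, he₀, he₀r, hacc⟩ := accN (α := α) (η := η) hR.conv hr (by linarith) hw₃ hη₁
  obtain ⟨e, he, d1, d2, d3, d4, d5⟩ : ∃ e : ℝ, 0 < e ∧ 2 * e ≤ e₀ ∧ e ≤ η₂ / 2 ∧ e ≤ c ∧
      e ≤ lam / 4 ∧ e ≤ η / 4 := by
    refine ⟨min (e₀ / 2) (min (η₂ / 2) (min c (min (lam / 4) (η / 4)))),
      lt_min (by positivity) (lt_min (by positivity) (lt_min hc (lt_min (by positivity)
      (by positivity)))), ?_, (min_le_right _ _).trans (min_le_left _ _),
      (min_le_right _ _).trans ((min_le_right _ _).trans (min_le_left _ _)),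
      (min_le_right _ _).trans ((min_le_right _ _).trans ((min_le_right _ _).trans
        (min_le_left _ _))), (min_le_right _ _).trans ((min_le_right _ _).trans
        ((min_le_right _ _).trans (min_le_right _ _)))⟩
    have h1 : min (e₀ / 2) (min (η₂ / 2) (min c (min (lam / 4) (η / 4)))) ≤ e₀ / 2 :=
      min_le_left _ _
    linarith
  have hq : Req α S F r η η₁ η₂ e C := by
    refine ⟨hr, hη, by linarith, c1, he.le, by linarith, by linarith, ?_, ?_, ?_, ?_, ?_, ?_, ?_,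
      ?_⟩
    · exact fun a ha p q hpq => hFmod _ (Finset.mem_image_of_mem _ ha) p q (hpq.trans c3)
    · exact min_le_left _ _
    · exact (min_le_right _ _).trans (min_le_left _ _)
    · exact fun s hs p q hpq => ((min_le_right _ _).trans (min_le_right _ _)).trans
        (hSlow s hs p q hpq)
    · exact hFlow'
    · exact hFlow'
    · rfl
    · rfl
  refine ⟨e, he, T ∪ V ∪ S ∪ (F.image fun a => a.1), fun Y hY hYP => ?_⟩
  have hYT : ∀ s ∈ T, ∀ g, dist (α s (Y g)) (Y (s * g)) ≤ e := fun s hs => hY s (by simp [hs])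
  have hYV : ∀ s ∈ V, ∀ g, dist (α s (Y g)) (Y (s * g)) ≤ e := fun s hs => hY s (by simp [hs])
  have hYS : ∀ s ∈ S, ∀ g, dist (α s (Y g)) (Y (s * g)) ≤ e := fun s hs => hY s (by simp [hs])
  have hYF : ∀ a ∈ F, ∀ g, dist (α a.1 (Y g)) (Y (a.1 * g)) ≤ e := fun a ha =>
    hY a.1 (Finset.mem_union_right _ (Finset.mem_image_of_mem _ ha))
  choose z hz1 hz2 hz3 using track hR hr₀ hq hF hη₁ hw₃ hacc d1 hrr hS d3 hYS hYF hYP
  have hcons : ∀ t ∈ T, ∀ g, z (t * g) = z g := by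
    intro t ht g
    by_contra hne
    obtain ⟨i, -, -, hi, -⟩ := hw₃.two (Y g)
    have hw : α g (α g⁻¹ (w₃ i)) = w₃ i := map_inv_apply' α _ _
    set w := α g⁻¹ (w₃ i) with hwd
    -- the data of the first chain
    have k1 : dist (α g (z (t * g))) (Y g) < η / 2 := by
      have h1 := hz1 (t * g)
      rw [map_mul_apply] at h1
      have h2 := hYT t ht g
      have h3 := dist_triangle_right (α t (α g (z (t * g)))) (α t (Y g)) (Y (t * g))
      have h4 := hTmod t⁻¹ (Finset.mem_union_right _ (Finset.mem_image_of_mem _ ht))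
        (α t (α g (z (t * g)))) (α t (Y g)) (by linarith)
      rw [map_inv_apply, map_inv_apply] at h4
      linarith
    have D1 := hz2 g (z (t * g)) w (fun h0 => hne h0.symm) k1 (by rw [hw]; linarith)
    -- the data of the second chain
    have k2 : dist (α (t * g) (z g)) (Y (t * g)) < η / 2 := by
      have h1 := hTmod t (Finset.mem_union_left _ ht) (α g (z g)) (Y g)
        (by linarith [hz1 g])
      have h2 := hYT t ht g
      have h3 := dist_triangle (α (t * g) (z g)) (α t (Y g)) (Y (t * g))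
      rw [map_mul_apply] at h3 ⊢
      linarith
    have k3 : 5 * η ≤ dist (α (t * g) w) (Y (t * g)) := by
      rw [map_mul_apply, hw]
      have h1 := hTlow t ht (w₃ i) (Y g) hi
      have h2 := hYT t ht g
      have h3 := dist_triangle_right (α t (w₃ i)) (α t (Y g)) (Y (t * g))
      linarith
    have D2 := hz2 (t * g) (z g) w hne k2 k3
    obtain ⟨m, m', h1, h2, h3, h4⟩ := hdata η₂ e Y (z g) (z (t * g)) w
      (by show η₂ ≤ 4 * r / 4; linarith) (by show e ≤ 4 * r / 4; linarith)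
      (fun h0 => hne h0.symm) hYP D1 D2
    exact no_common hVlow (fun v hv p q hpq => hVmod v hv p q (hpq.trans b4)) b3 d4 hlam hYV
      h1 h2 h3 h4
  have hall : ∀ g, ∀ h, z (g * h) = z h := by
    intro g
    have hg : g ∈ Subgroup.closure (T : Set G) := by rw [hT]; trivial
    refine Subgroup.closure_induction (p := fun g _ => ∀ h, z (g * h) = z h) ?_ ?_ ?_ ?_ hg
    · exact fun t ht h => hcons t ht h
    · intro h
      rw [one_mul]
    · intro p q _ _ hp hq h
      rw [mul_assoc, hp, hq]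
    · intro p _ hp h
      have h1 := hp (p⁻¹ * h)
      rw [mul_inv_cancel_left] at h1
      exact h1.symm
  refine ⟨z 1, fun g => ?_, fun x' hx' => hz3 1 x' hx'⟩
  have h1 := hz1 g
  have h2 := hall g 1
  rw [mul_one] at h2
  rw [h2] at h1
  exact h1.trans_le b1

/-- **Shadowing of maps**, relatively hyperbolic case. -/
theorem shadow_mapC [Infinite X] (hR : Rl α Ps) (hC : Cusp α Ps)
    (hperf : ∀ x : X, (𝓝[≠] x).NeBot) (T : Finset G)
    (hT : Subgroup.closure (T : Set G) = ⊤) :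
    ∃ r > 0, ∀ δ > 0, ∃ ε > 0, ∀ (Z : Type) [TopologicalSpace Z] (a : G →* (Z ≃ₜ Z)) (h : Z → X),
      (∀ z, ∀ᶠ z' in 𝓝 z, dist (h z') (h z) ≤ r) →
      (∀ s ∈ T, ∀ z, dist (α s (h z)) (h (a s z)) ≤ ε) →
      (∀ p ∈ Ps, ∀ k, α k p = p → ∀ z, dist (α k (h z)) (h (a k z)) ≤ ε) →
      ∃ H : Z → X, Continuous H ∧ (∀ g z, H (a g z) = α g (H z)) ∧
        (∀ z, dist (H z) (h z) < δ) ∧
        ∀ H' : Z → X, (∀ g z, H' (a g z) = α g (H' z)) → (∀ z, dist (H' z) (h z) ≤ 2 * r) →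
          H' = H := by
  obtain ⟨r', hr', hsh⟩ := shadowC hR hC hperf T hT
  obtain ⟨r, hr, hrr⟩ : ∃ r : ℝ, 0 < r ∧ 2 * r = r' := ⟨r' / 2, by positivity, by ring⟩
  refine ⟨r, hr, fun δ hδ => ?_⟩
  obtain ⟨ε₁, hε₁, P, hP⟩ := hsh (min δ r) (lt_min hδ hr)
  obtain ⟨ε₂, hε₂, hgen⟩ := gen_all α T hT P hε₁
  refine ⟨min ε₁ ε₂, lt_min hε₁ hε₂, fun Z _ a h hosc heq hper => ?_⟩
  have hma : ∀ g g' z, a (g * g') z = a g (a g' z) := fun g g' z => by rw [map_mul]; rfl
  have hY : ∀ z, ∃ x, (∀ g, dist (α g x) (h (a g z)) < min δ r) ∧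
      ∀ x', (∀ g, dist (α g x') (h (a g z)) ≤ r') → x' = x := by
    intro z
    refine hP (fun g => h (a g z)) (hgen _ fun s hs g => ?_) fun p hp k hk g => ?_
    · rw [hma]
      exact (heq s hs _).trans (min_le_right _ _)
    · rw [hma]
      exact (hper p hp k hk _).trans (min_le_left _ _)
  choose H hH1 hH2 using hY
  have h1 : ∀ x : X, α 1 x = x := fun x => by rw [map_one]; rfl
  have ha1 : ∀ z : Z, a 1 z = z := fun z => by rw [map_one]; rfl
  refine ⟨H, ?_, ?_, ?_, ?_⟩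
  · rw [continuous_iff_continuousAt]
    intro z₀
    refine isCompact_univ.tendsto_nhds_of_unique_mapClusterPt
      (Eventually.of_forall fun z => mem_univ _) fun x' _ hx' => hH2 z₀ x' fun g => ?_
    have hev : ∀ᶠ z in 𝓝 z₀, dist (α g (H z)) (h (a g z₀)) ≤ r' := by
      have h3 := (a g).continuous.continuousAt (x := z₀) |>.eventually (hosc (a g z₀))
      filter_upwards [h3] with z hz
      have h4 := (hH1 z g).trans_le (min_le_right δ r)
      have h5 := dist_triangle (α g (H z)) (h (a g z)) (h (a g z₀))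
      linarith
    have hcl : IsClosed {x : X | dist (α g x) (h (a g z₀)) ≤ r'} :=
      isClosed_le ((α g).continuous.dist continuous_const) continuous_const
    by_contra hcon
    have hnh : {x : X | dist (α g x) (h (a g z₀)) ≤ r'}ᶜ ∈ 𝓝 x' := hcl.isOpen_compl.mem_nhds hcon
    have := (hx'.frequently hnh).and_eventually hev
    obtain ⟨z, hz1, hz2⟩ := this.exists
    exact hz1 hz2
  · intro g z
    refine (hH2 (a g z) _ fun g' => ?_).symm
    rw [← map_mul_apply, ← hma]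
    have h4 := (hH1 z (g' * g)).trans_le (min_le_right δ r)
    linarith
  · intro z
    have := hH1 z 1
    rw [h1, ha1] at this
    exact this.trans_le (min_le_left _ _)
  · intro H' hH' hH''
    funext z
    refine hH2 z _ fun g => ?_
    rw [← hH', ← hrr]
    exact hH'' _

end Pool.Agent.H72.Ca
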