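import Pool.Agent.H72.Ca.C8
import Pool.Agent.H72.Sh.S5
import Pool.Agent.H72.Rel.R6

/-!
# Approximate boundary maps of relatively hyperbolic groups: actions on hyperbolic space
-/

set_option autoImplicit false

open Filter Topology Set Metric Pool.Agent.TH289.C Pool.Agent.H72.Dj Pool.Agent.H72.Rel
open Pool.Agent.H72.Sh

namespace Pool.Agent.H72.Ca

section Gen

variable {G : Type} [Group G] {X : Type} [MetricSpace X] {α : G →* (X ≃ₜ X)} {Ps : Finset X}

theorem stab_conj {p : X} {f g : G} : α g (α f p) = α f p ↔ α (f⁻¹ * g * f) p = p := by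
  rw [mul_assoc, map_mul_apply, map_mul_apply]
  constructor
  · intro h
    rw [h, map_inv_apply]
  · intro h
    have h1 := congrArg (α f) h
    rwa [map_inv_apply'] at h1

theorem virt_conj {p : X} (f : G) (h : TH631.RC.VirtAbelian (stab α p)) :
    TH631.RC.VirtAbelian (stab α (α f p)) := by
  classical
  obtain ⟨A, F, hA, hcomm, hfin, a₁, ha₁, a₂, ha₂, hinj⟩ := h
  have hz : ∀ (a : G) (n : ℤ), (f * a * f⁻¹) ^ n = f * a ^ n * f⁻¹ := fun a n => by
    rw [← MulAut.conj_apply, ← MulAut.conj_apply, map_zpow]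
  refine ⟨A.map (MulAut.conj f).toMonoidHom, F.image (fun g => f * g * f⁻¹), ?_, ?_, ?_,
    f * a₁ * f⁻¹, ⟨a₁, ha₁, rfl⟩, f * a₂ * f⁻¹, ⟨a₂, ha₂, rfl⟩, ?_⟩
  · rintro _ ⟨a, ha, rfl⟩
    have h1 : α a p = p := hA ha
    change α (f * a * f⁻¹) (α f p) = α f p
    rw [map_mul_apply, map_inv_apply, map_mul_apply, h1]
  · rintro _ ⟨a, ha, rfl⟩ _ ⟨b, hb, rfl⟩
    rw [← map_mul, ← map_mul, hcomm a ha b hb]
  · intro g hg
    have h1 : α (f⁻¹ * g * f) p = p := stab_conj.1 hg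
    obtain ⟨a, ha, b, hb, h2⟩ := hfin _ h1
    refine ⟨f * a * f⁻¹, ⟨a, ha, rfl⟩, f * b * f⁻¹, Finset.mem_image_of_mem _ hb, ?_⟩
    have h3 : g = f * (f⁻¹ * g * f) * f⁻¹ := by group
    rw [h3, h2]
    group
  · rintro ⟨m, n⟩ ⟨m', n'⟩ h
    apply hinj
    simp only [hz] at h ⊢
    have h1 : f * (a₁ ^ m * a₂ ^ n) * f⁻¹ = f * (a₁ ^ m' * a₂ ^ n') * f⁻¹ := by
      have e1 : ∀ x y : G, f * (x * y) * f⁻¹ = f * x * f⁻¹ * (f * y * f⁻¹) := fun x y => by group
      rw [e1, e1]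
      exact h
    exact mul_left_cancel (mul_right_cancel h1)

theorem bdd_par {p : X} (hP : Par α p) (f : G) :
    TH631.RC.BoundedParabolic (toRC α) (α f p) (stab α (α f p)) := by
  refine ⟨fun g hg => hg, fun K hK hpK => ?_, ?_⟩
  · have h1 := hP.proper (α f⁻¹ '' K) (hK.image (α f⁻¹).continuous) (by
      rintro ⟨w, hw, h⟩
      apply hpK
      rw [← h, map_inv_apply']
      exact hw)
    refine (h1.image fun g => f * g * f⁻¹).subset ?_
    rintro g ⟨hg, w, hw, hw'⟩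
    refine ⟨f⁻¹ * g * f, ⟨stab_conj.1 hg, α f⁻¹ w, ⟨w, hw, rfl⟩, α g w, hw', ?_⟩, ?_⟩
    · rw [map_mul_apply, map_inv_apply', map_mul_apply]
    · change f * (f⁻¹ * g * f) * f⁻¹ = g
      group
  · obtain ⟨K, hK, hpK, hKc⟩ := hP.cocompact
    refine ⟨α f '' K, hK.image (α f).continuous, ?_, fun w hw => ?_⟩
    · rintro ⟨w, hw, h⟩
      exact hpK ((α f).injective h ▸ hw)
    · obtain ⟨g, hg, hgK⟩ := hKc (α f⁻¹ w) (fun h0 => hw (by rw [← h0, map_inv_apply']))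
      refine ⟨f * g * f⁻¹, ?_, α g (α f⁻¹ w), hgK, ?_⟩
      · change α (f * g * f⁻¹) (α f p) = α f p
        rw [map_mul_apply, map_inv_apply, map_mul_apply, hg]
      · change α f (α g (α f⁻¹ w)) = α (f * g * f⁻¹) w
        rw [map_mul_apply, map_mul_apply]

theorem geomFin [CompactSpace X] [Infinite X] (hR : Rl α Ps) (hC : Cusp α Ps)
    (hperf : ∀ x : X, (𝓝[≠] x).NeBot) (hV : ∀ p ∈ Ps, TH631.RC.VirtAbelian (stab α p)) :
    TH631.RC.GeomFinite (toRC α) := by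
  obtain ⟨r₀, hr₀0, hr₀ex⟩ := hR.exists_r
  obtain ⟨ε, hε, hcon⟩ := con_or hR hC hperf ⟨hr₀0, hr₀ex⟩
  intro x
  rcases hcon x with ⟨p, hp, f, rfl⟩ | ⟨g, a, b, hab, hg, ha⟩
  · exact Or.inr ⟨stab α (α f p), bdd_par (hR.par p hp) f, virt_conj f (hV p hp)⟩
  · left
    obtain ⟨e, r, hr, he⟩ := exists_wide (X := X)
    have hne : ∀ i j, i ≠ j → e i ≠ e j := fun i j hij h0 => by
      have := he i j hij
      rw [h0, dist_self] at this
      linarith
    exact ⟨g, a, b, hg.cofinite hne, fun h0 => by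
      rw [h0, dist_self] at hab
      linarith, ha, fun w hw => hg.tendsto hw⟩

end Gen

section Hyp

open TH631.RC (Sp HypAction F T tt)

variable {G : Type} [Group G]

/-- **The theorem**, general form. -/
theorem stableC {X : Type} [MetricSpace X] {α : G →* (X ≃ₜ X)} [CompactSpace X] [Infinite X]
    {Ps : Finset X} (hR : Rl α Ps) (hC : Cusp α Ps)
    (hV : ∀ p ∈ Ps, TH631.RC.VirtAbelian (stab α p))
    (hmin : ∀ x, Dense (range fun g => α g x)) (T : Finset G)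
    (hT : Subgroup.closure (T : Set G) = ⊤) :
    ∃ r > 0, ∀ δ > 0, ∃ ε > 0, ∀ (E : Type) [NormedAddCommGroup E] [InnerProductSpace ℝ E]
      [FiniteDimensional ℝ E], 1 < Module.finrank ℝ E → ∀ (ρ : HypAction G E) (h : Sp E → X),
      (∀ z, ∀ᶠ z' in 𝓝 z, dist (h z') (h z) ≤ r) →
      (∀ s ∈ T, ∀ z, dist (α s (h z)) (h (F ρ s z)) ≤ ε) →
      (∀ p ∈ Ps, ∀ k, α k p = p → ∀ z, dist (α k (h z)) (h (F ρ k z)) ≤ ε) →
      TH631.RC.IsLattice ρ ∧
      (Ps = ∅ → ∃ R : ℝ, ∀ v ∈ TH631.RC.HypSpace E, ∃ g : G, (ρ.map g v).1 ≤ R) ∧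
      ∃ H : Sp E → X, IsHomeomorph H ∧ (∀ g z, H (F ρ g z) = α g (H z)) ∧
        (∀ c, H c ∈ Ps → ∀ g, α g (H c) = H c →
          ρ.map g (TH631.RC.light (c : E)) = TH631.RC.light (c : E)) ∧
        (∀ z, dist (H z) (h z) < δ) ∧
        ∀ H' : Sp E → X, (∀ g z, H' (F ρ g z) = α g (H' z)) → (∀ z, dist (H' z) (h z) ≤ 2 * r) →
          H' = H := by
  obtain ⟨r, hr, h1⟩ := shadow_mapC hR hC (perfect hmin) T hT
  refine ⟨r, hr, fun δ hδ => ?_⟩
  obtain ⟨ε, hε, h2⟩ := h1 δ hδ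
  refine ⟨ε, hε, fun E _ _ _ hE ρ h hosc heq hper => ?_⟩
  obtain ⟨H, hHc, hHe, hHd, hHu⟩ := h2 (Sp E) (homF ρ) h hosc heq hper
  have hHe' : ∀ g z, H (F ρ g z) = α g (H z) := hHe
  have hntE : Nontrivial E := Module.nontrivial_of_finrank_pos (R := ℝ) (by omega)
  have hneS : Nonempty (Sp E) := (NormedSpace.sphere_nonempty.2 zero_le_one).to_subtype
  have hd : TH631.RC.Data ρ (toRC α) H :=
    ⟨hHc, hHe', TH631.RC.inf_of hE hHc (nonconst hmin hHe')⟩
  have hαc : TH631.RC.IsConvergence (toRC α) := hR.conv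
  have hgf := geomFin hR hC (perfect hmin) hV
  refine ⟨hd.lattice hE hαc hgf, fun hPs => ?_, H, hd.homeo hE hαc hgf, hHe', ?_, hHd, hHu⟩
  · refine cocompact_of_tt fun x => (hd.conical hαc ?_).2 x rfl
    have hco : CocompactOnTriples α := by
      obtain ⟨ε', hε', hcov⟩ := hC 1 one_pos
      refine ⟨ε', hε', fun x y z hxy hyz hxz => ?_⟩
      have ht : 0 < sep ![x, y, z] := by
        unfold sep
        refine lt_min ?_ (lt_min ?_ ?_)
        · exact dist_pos.2 hxy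
        · exact dist_pos.2 hyz
        · exact dist_pos.2 hxz
      rcases hcov _ ht with ⟨g, hg⟩ | ⟨g, p, hp, -⟩
      · exact ⟨g, hg.trans (sep_le (act α g ![x, y, z]) (show (0 : Fin 3) ≠ 1 by decide)),
          hg.trans (sep_le (act α g ![x, y, z]) (show (1 : Fin 3) ≠ 2 by decide)),
          hg.trans (sep_le (act α g ![x, y, z]) (show (0 : Fin 3) ≠ 2 by decide))⟩
      · rw [hPs] at hp
        simp at hp
    exact conical_all hR.conv hmin hco _
  · intro c hc g hg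
    have hbp := bdd_par (hR.par _ hc) 1
    have e1 : α 1 (H c) = H c := by rw [map_one]; rfl
    rw [e1] at hbp
    obtain ⟨c', hfib, hfix, -⟩ := hd.parabolic hE hαc hbp (hV _ hc)
    have hcc : c = c' := (hfib c).1 rfl
    subst hcc
    have h3 := hfix g hg
    rw [TH631.RC.map_light, h3.1, h3.2, one_smul]

end Hyp

end Pool.Agent.H72.Ca
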